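import Pool.Agent.FS.UniqCrit.Hat

set_option autoImplicit false

namespace Pool.Agent.FS.UniqCrit

open MeasureTheory Filter Topology Finset
open Pool.Agent.Lib.MP_c7f57c_an Pool.Agent.Lib.MP_c7f57c_an.Thr
open Pool.Agent.Lib.MP_c7f57c_an.Gen (P psi P_pos P_posR P_mono lt_P P_succ P_succR)

/-- the flatness condition with complex weights -/
def FlatC (M : ℕ → ℕ) (D : ℕ → Finset ℕ) : Prop :=
  ∀ ε : ℝ, 0 < ε → ∀ᶠ n in atTop, ∃ w : ℕ → ℂ, ∑ d ∈ D n, w d = 1 ∧
    ∀ j : ℕ, 0 < j → j < M n → ‖∑ d ∈ D n, w d * ch (j * d / M n)‖ ≤ ε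

open Uniq in
/-- one level: the series tested on the cells gives a function on the digits -/
lemma back_level {a b : ℕ → ℝ} {C' : ℝ} (hC : ∀ n, |a n| + |b n| ≤ C') {N j P M : ℕ}
    {D : Finset ℕ} {δ : ℝ} (hδ0 : 0 < δ) (hN : ∀ n, N ≤ n → |a n| + |b n| < δ)
    (hP : N + 4 * j + 1 ≤ P) (hM0 : 0 < M) (hDM : D ⊆ Finset.range M)
    (hQ' : ∀ r < P, ∀ e < M, e ∉ D →
        ∀ x ∈ Set.Ioo ((r + (e : ℝ) / M) / P) ((r + ((e : ℝ) + 1) / M) / P),
          Tendsto (fun N => ∑ n ∈ Finset.range N, tm a b n x) atTop (𝓝 0))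
    (d : ℂ) (hd : d = if j = 0 then (a 0 : ℂ) else (a j - b j * Complex.I) / 2) :
    ∃ μ : ℕ → ℂ, (∀ s ∈ Finset.Ico 1 M, ‖∑ e ∈ D, μ e * ch (-(s * ((e : ℝ) / M)))‖ ≤
        (4 * ZZ + 1) * ((P * M : ℕ) * δ)) ∧
      (P * M : ℕ) * ‖d‖ * (1 / 4) - 4 * ZZ * ((P * M : ℕ) * δ) ≤ ‖∑ e ∈ D, μ e‖ := by
  have hP0 : 0 < P := by omega
  have hMr : (0 : ℝ) < M := by exact_mod_cast hM0
  have hPr : (0 : ℝ) < P := by exact_mod_cast hP0
  have hPQ : P ≤ P * M := Nat.le_mul_of_pos_right _ hM0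
  have hQr : (0 : ℝ) < (P * M : ℕ) := by positivity
  set μ : ℕ → ℂ := fun e => ∑ r ∈ Finset.range P,
    (FF a b (P * M) (r * M + e) : ℂ) * ch (-(j * xx (P * M) (r * M + e))) with hμ
  have μ0 : ∀ e ∈ Finset.range M, e ∉ D → μ e = 0 := fun e he he' => by
    refine Finset.sum_eq_zero fun r hr => ?_
    have := gap_zero hC (hQ' r (Finset.mem_range.1 hr) e (Finset.mem_range.1 he) he')
      (xx (P * M) (r * M + e)) (1 / 2 / (P * M : ℕ)) (by positivity)
      (le_of_eq (by unfold xx; push_cast; field_simp; ring))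
      (le_of_eq (by unfold xx; push_cast; field_simp; ring))
    unfold FF ww
    rw [this, Complex.ofReal_zero, zero_mul]
  have hat : ∀ s : ℕ, ∑ i ∈ Finset.range (P * M), (FF a b (P * M) i : ℂ) *
      ch (-((j + s * P : ℕ) * xx (P * M) i)) =
      (∑ e ∈ D, μ e * ch (-(s * ((e : ℝ) / M)))) * ch (-(s / (2 * M))) := fun s => by
    rw [Finset.sum_subset hDM fun e he he' => by rw [μ0 e he he', zero_mul],
      sum_range_mul', Finset.sum_mul]
    refine Finset.sum_congr rfl fun e _ => ?_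
    rw [hμ, Finset.sum_mul, Finset.sum_mul]
    refine Finset.sum_congr rfl fun r _ => ?_
    have e1 : -(((j + s * P : ℕ) : ℝ) * xx (P * M) (r * M + e)) =
        -(j * xx (P * M) (r * M + e)) + (-(s * ((e : ℝ) / M)) + (-(s / (2 * M)) +
          ((-(s * r) : ℤ) : ℝ))) := by
      unfold xx; push_cast; field_simp; ring
    rw [e1, ch_add, ch_add, ch_add, ch_int]
    ring
  refine ⟨μ, fun s hs => ?_, ?_⟩
  · obtain ⟨s1, s2⟩ := Finset.mem_Ico.1 hs
    have s3 : (s + 1) * P ≤ M * P := Nat.mul_le_mul_right _ s2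
    have s4 : P ≤ s * P := Nat.le_mul_of_pos_left _ s1
    rw [add_mul, one_mul, mul_comm M] at s3
    have g1 := grid hC (Q := P * M) (J := j + s * P) (by omega) hδ0.le
      fun n hn => (hN n (by omega)).le
    have g2 : ‖TT a b (P * M) (j + s * P) (j + s * P) * ww (P * M) (j + s * P)‖ ≤
        (P * M : ℕ) * δ := by
      have w0 : 0 ≤ ww (P * M) (j + s * P) := sq_nonneg _
      rw [norm_mul, Complex.norm_real, Real.norm_eq_abs, abs_of_nonneg w0]
      exact (mul_le_of_le_one_right (norm_nonneg _) (sinc_sq_le_one _)).trans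
        ((norm_TT _ _ _ _ _).trans (mul_le_mul_of_nonneg_left (hN _ (by omega)).le hQr.le))
    have g3 := norm_sub_norm_le (∑ i ∈ Finset.range (P * M), (FF a b (P * M) i : ℂ) *
      ch (-((j + s * P : ℕ) * xx (P * M) i)))
      (TT a b (P * M) (j + s * P) (j + s * P) * ww (P * M) (j + s * P))
    have g4 := congrArg norm (hat s)
    rw [norm_mul, norm_ch, mul_one] at g4
    linarith
  have h0 := hat 0
  simp only [zero_mul, add_zero, Nat.cast_zero, neg_zero, ch_zero, mul_one, zero_div] at h0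
  have g1 := grid hC (Q := P * M) (J := j) (by omega) hδ0.le fun n hn => (hN n (by omega)).le
  have hTj : TT a b (P * M) j j = (P * M : ℕ) * d := by
    rw [TT_eq, hd]
    split_ifs with h0
    · subst h0; simp [ch_zero]; ring
    · rw [sum_ch_grid (by omega) _ (m := -((j : ℤ) + j)) (fun hm => ?_)]
      · simp [ch_zero]; ring
      · have := Int.le_of_dvd (by omega) ((dvd_neg).1 hm)
        omega
  have hwj : 1 / 4 ≤ ww (P * M) j := by
    have c1 := sinc_lip (j * (Real.pi * (1 / 2 / (P * M : ℕ)))) 0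
    rw [Real.sinc_zero, sub_zero, abs_of_nonneg (a := j * (Real.pi * (1 / 2 / (P * M : ℕ))))
      (by positivity)] at c1
    have c2 : j * (Real.pi * (1 / 2 / (P * M : ℕ))) ≤ 1 / 2 := by
      have c3 : 4 * (j : ℝ) ≤ (P * M : ℕ) := by exact_mod_cast (show 4 * j ≤ P * M by omega)
      rw [← mul_div_assoc, ← mul_div_assoc (j : ℝ), div_le_iff₀ hQr]
      nlinarith [Real.pi_le_four, (Nat.cast_nonneg j : (0 : ℝ) ≤ j)]
    have c4 := (abs_le.1 c1).1
    unfold ww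
    nlinarith
  rw [h0, hTj, norm_sub_rev] at g1
  have g3 := norm_sub_norm_le (((P * M : ℕ) : ℂ) * d * ww (P * M) j) (∑ e ∈ D, μ e)
  rw [norm_mul, norm_mul, Complex.norm_natCast, Complex.norm_real, Real.norm_eq_abs,
    abs_of_nonneg (le_trans (by norm_num) hwj)] at g3
  have f1 := mul_le_mul_of_nonneg_left hwj (mul_nonneg hQr.le (norm_nonneg d))
  linarith

lemma flat_of_series {M : ℕ → ℕ} (hM : ∀ n, 2 ≤ M n) {D : ℕ → Finset ℕ}
    (hD : ∀ n, D n ⊆ range (M n)) {a b : ℕ → ℝ}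
    (h : ∀ x ∈ Set.Icc (0 : ℝ) 1 \
      {x : ℝ | ∃ d : ℕ → ℕ, (∀ n, d n ∈ D n) ∧ x = ∑' n, (d n : ℝ) / P M (n + 1)},
      Tendsto (fun N => ∑ n ∈ range N, Uniq.tm a b n x) atTop (𝓝 0))
    (hne : ¬ ((∀ n, a n = 0) ∧ ∀ n, 1 ≤ n → b n = 0)) : FlatC M D := by
  classical
  have hm : ∀ n, (0 : ℝ) < M n := fun n => by have := hM n; positivity
  have hcell : ∀ n, ∀ r < P M n, ∀ e < M n, e ∉ D n →
      ∀ x ∈ Set.Ioo ((r + (e : ℝ) / M n) / P M n) ((r + ((e : ℝ) + 1) / M n) / P M n),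
        Tendsto (fun N => ∑ n ∈ range N, Uniq.tm a b n x) atTop (𝓝 0) := by
    intro n r hr e he he' x hx
    have hmn := hm n
    refine h x ⟨⟨?_, ?_⟩, ?_⟩
    · exact le_trans (by positivity) hx.1.le
    · refine hx.2.le.trans (div_le_one_of_le₀ ?_ (P_posR hM n).le)
      have h1 : (r : ℝ) + 1 ≤ P M n := by exact_mod_cast hr
      have h2 : ((e : ℝ) + 1) / M n ≤ 1 := div_le_one_of_le₀ (by exact_mod_cast he) hmn.le
      linarith
    · rintro ⟨d, hd, rfl⟩
      exact he' (Gen.gap hM (fun k => Finset.mem_range.1 (hD k (hd k))) he hx ▸ hd n)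
  by_cases hall : ∀ n, D n = range (M n)
  · intro ε hε
    refine Eventually.of_forall fun n => ⟨fun _ => 1 / (M n : ℂ), ?_, fun j hj hjM => ?_⟩
    · have h0 : (M n : ℂ) ≠ 0 := by exact_mod_cast (show M n ≠ 0 by have := hM n; omega)
      rw [hall n, Finset.sum_const, Finset.card_range, nsmul_eq_mul, mul_one_div_cancel h0]
    · have h0 := Uniq.sum_ch_grid (Q := M n) (by omega) 0 (m := (j : ℤ)) (fun hd => by
        have := Int.le_of_dvd (by omega) hd
        omega)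
      have h1 : ∑ d ∈ range (M n), ch (j * d / M n) = 0 := by
        rw [← h0]
        refine Finset.sum_congr rfl fun d _ => ?_
        congr 1; push_cast; ring
      rw [hall n, ← Finset.mul_sum, h1, mul_zero, norm_zero]
      exact hε.le
  obtain ⟨n0, hn0⟩ := not_forall.1 hall
  obtain ⟨e, he, he'⟩ : ∃ e ∈ range (M n0), e ∉ D n0 := by
    by_contra hc
    refine hn0 (Finset.Subset.antisymm (hD n0) fun e he => ?_)
    by_contra h'
    exact hc ⟨e, he, h'⟩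
  have hCL : Tendsto (fun n => |a n| + |b n|) atTop (𝓝 0) := by
    refine Uniq.cantor_lebesgue (u := ((0 : ℕ) + (e : ℝ) / M n0) / P M n0)
      (v := ((0 : ℕ) + ((e : ℝ) + 1) / M n0) / P M n0)
      (div_lt_div_of_pos_right (by
        have := div_lt_div_of_pos_right (lt_add_one (e : ℝ)) (hm n0)
        linarith) (P_posR hM n0)) fun x hx => ?_
    have h1 := hcell n0 0 (P_pos hM n0) e (Finset.mem_range.1 he) he' x hx
    have h2 := (h1.comp (tendsto_add_atTop_nat 1)).sub h1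
    rw [sub_zero] at h2
    exact h2.congr fun n => by simp [Finset.sum_range_succ]
  obtain ⟨C', hC⟩ : ∃ C, ∀ n, |a n| + |b n| ≤ C := by
    obtain ⟨B, hB⟩ := hCL.bddAbove_range
    exact ⟨B, fun n => hB ⟨n, rfl⟩⟩
  obtain ⟨j, hj⟩ : ∃ j : ℕ, (if j = 0 then (a 0 : ℂ) else (a j - b j * Complex.I) / 2) ≠ 0 := by
    by_contra hc
    have main : ∀ j : ℕ, (if j = 0 then (a 0 : ℂ) else (a j - b j * Complex.I) / 2) = 0 :=
      fun j => by
        by_contra h'
        exact hc ⟨j, h'⟩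
    refine hne ⟨fun n => ?_, fun n hn => ?_⟩
    · have := main n
      split_ifs at this with h0
      · rw [h0]; exact_mod_cast this
      · simpa using congrArg Complex.re this
    · have := main n
      rw [if_neg (by omega)] at this
      simpa using congrArg Complex.im this
  obtain ⟨d, hd⟩ : ∃ d : ℂ, d = if j = 0 then (a 0 : ℂ) else (a j - b j * Complex.I) / 2 :=
    ⟨_, rfl⟩
  have hd0 : 0 < ‖d‖ := norm_pos_iff.2 (hd ▸ hj)
  have hZ := ZZ_nonneg
  intro ε hε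
  obtain ⟨δ, hδ0, hδ1, hδ2⟩ : ∃ δ : ℝ, 0 < δ ∧ (4 * ZZ + 1) * δ ≤ ‖d‖ / 8 ∧
      (4 * ZZ + 1) * δ ≤ ε * (‖d‖ / 8) := by
    have h1 : 0 < min 1 ε := lt_min one_pos hε
    have h2 : (4 * ZZ + 1) * (min 1 ε * (‖d‖ / 8) / (4 * ZZ + 1)) = min 1 ε * (‖d‖ / 8) := by
      field_simp
    refine ⟨min 1 ε * (‖d‖ / 8) / (4 * ZZ + 1), by positivity, ?_, ?_⟩
    · rw [h2]
      exact mul_le_of_le_one_left (by positivity) (min_le_left _ _)
    · rw [h2]
      exact mul_le_mul_of_nonneg_right (min_le_right _ _) (by positivity)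
  obtain ⟨N, hN⟩ := eventually_atTop.1 (hCL.eventually (gt_mem_nhds hδ0))
  filter_upwards [eventually_ge_atTop (N + 4 * j + 1)] with n hn
  obtain ⟨μ, h1, h2⟩ := back_level hC hδ0 hN (hn.trans (lt_P hM n).le)
    (by have := hM n; omega) (hD n) (hcell n) d hd
  obtain ⟨Q, hQ⟩ : ∃ Q : ℝ, Q = (P M n * M n : ℕ) := ⟨_, rfl⟩
  have hQ0 : 0 < Q := by
    rw [hQ, Nat.cast_mul]
    exact mul_pos (P_posR hM n) (hm n)
  rw [← hQ] at h1 h2
  have k1 := mul_le_mul_of_nonneg_left hδ1 hQ0.le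
  have k2 := mul_le_mul_of_nonneg_left hδ2 hQ0.le
  have k0 := mul_pos hQ0 hδ0
  have hS : Q * (‖d‖ / 8) ≤ ‖∑ e ∈ D n, μ e‖ := by linarith
  have hS0 : 0 < ‖∑ e ∈ D n, μ e‖ := lt_of_lt_of_le (by positivity) hS
  have hS1 : ∑ e ∈ D n, μ e ≠ 0 := norm_pos_iff.1 hS0
  refine ⟨fun e => μ e / ∑ e ∈ D n, μ e, by rw [← Finset.sum_div, div_self hS1],
    fun i hi0 hiM => ?_⟩
  have e1 : ∑ e ∈ D n, (μ e / ∑ e ∈ D n, μ e) * ch (i * e / M n) =
      (∑ e ∈ D n, μ e * ch (-(((M n - i : ℕ) : ℝ) * ((e : ℝ) / M n)))) / ∑ e ∈ D n, μ e := by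
    rw [Finset.sum_div]
    refine Finset.sum_congr rfl fun e _ => ?_
    have hmn := (hm n).ne'
    have e2 : -(((M n - i : ℕ) : ℝ) * ((e : ℝ) / M n)) =
        i * e / M n + ((-(e : ℤ) : ℤ) : ℝ) := by
      rw [Nat.cast_sub hiM.le]; push_cast; field_simp; ring
    rw [e2, ch_add, ch_int]
    ring
  rw [e1, norm_div, div_le_iff₀ hS0]
  refine (h1 (M n - i) (Finset.mem_Ico.2 ⟨by omega, by omega⟩)).trans ?_
  have k3 := mul_le_mul_of_nonneg_left hS hε.le
  linarith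

end Pool.Agent.FS.UniqCrit
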