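import Pool.Agent.FS.UniqCrit.Mult

set_option autoImplicit false

namespace Pool.Agent.FS.UniqCrit

open MeasureTheory Filter Topology Finset
open Pool.Agent.Lib.MP_c7f57c_an Pool.Agent.Lib.MP_c7f57c_an.Thr
open Pool.Agent.Lib.MP_c7f57c_an.Gen (P psi P_pos P_posR P_mono lt_P P_succ P_succR)

/-- trapezoid sampled at the midpoints of the cells -/
noncomputable def tz (η : ℝ) (M d : ℕ) : ℝ :=
  max 0 (min 1 (min (((d : ℝ) + 1 / 2) / M) (1 - ((d : ℝ) + 1 / 2) / M) / η))

lemma tz_nonneg (η : ℝ) (M d : ℕ) : 0 ≤ tz η M d := le_max_left _ _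

lemma tz_le_one (η : ℝ) (M d : ℕ) : tz η M d ≤ 1 := max_le zero_le_one (min_le_left _ _)

lemma cutA_cnt {M : ℕ} (hM : 0 < M) {η : ℝ} (hη : 0 < η) :
    ∑ d ∈ range M, (if ((d : ℝ) + 1 / 2) / M < η then (1 : ℝ) else 0) ≤ 2 * η * M := by
  have hM' : (0 : ℝ) < M := by positivity
  rw [sum_boole]
  have h1 : (range M).filter (fun d : ℕ => ((d : ℝ) + 1 / 2) / M < η) ⊆
      range ⌈η * M - 1 / 2⌉₊ := fun d hd => by
    have := (mem_filter.1 hd).2
    rw [div_lt_iff₀ hM'] at this
    exact mem_range.2 (Nat.lt_ceil.2 (by linarith))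
  have h2 := card_le_card h1
  rw [card_range] at h2
  refine le_trans (Nat.cast_le.2 h2) ?_
  rcases le_total (η * M - 1 / 2) 0 with h | h
  · rw [Nat.ceil_eq_zero.2 h, Nat.cast_zero]; positivity
  · have := Nat.ceil_lt_add_one h
    linarith

lemma tz_sum {η : ℝ} (hη : 0 < η) {M : ℕ} (hM : 0 < M) :
    ∑ d ∈ range M, (1 - tz η M d) ≤ 4 * η * M := by
  have hM' : (0 : ℝ) < M := by positivity
  have c1 := cutA_cnt hM hη
  have c2 : ∑ d ∈ range M, (if 1 - ((d : ℝ) + 1 / 2) / M < η then (1 : ℝ) else 0) ≤ 2 * η * M := by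
    rw [← sum_range_reflect] at c1
    refine le_trans (le_of_eq (sum_congr rfl fun d hd => ?_)) c1
    have hd' := mem_range.1 hd
    have : (((M - 1 - d : ℕ) : ℝ) + 1 / 2) / M = 1 - ((d : ℝ) + 1 / 2) / M := by
      rw [Nat.cast_sub (by omega), Nat.cast_sub (by omega)]
      field_simp
      ring
    rw [this]
  refine le_trans (sum_le_sum fun d _ => ?_) (le_trans (le_of_eq sum_add_distrib)
    ((add_le_add c1 c2).trans (le_of_eq (by ring))))
  unfold tz
  generalize ((d : ℝ) + 1 / 2) / M = y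
  have p := le_max_left 0 (min 1 (min y (1 - y) / η))
  split_ifs with h1 h2 h2
  · linarith
  · linarith
  · linarith
  · have : 1 ≤ min y (1 - y) / η := by
      rw [le_div_iff₀ hη, one_mul]
      exact le_min (not_lt.1 h1) (not_lt.1 h2)
    rw [min_eq_left this, max_eq_right zero_le_one]
    norm_num

lemma cutA_lip {η : ℝ} (hη : 0 < η) (x y : ℝ) :
    |max 0 (min 1 (min x (1 - x) / η)) - max 0 (min 1 (min y (1 - y) / η))| ≤ |x - y| / η := by
  have h1 : |min x (1 - x) - min y (1 - y)| ≤ |x - y| := by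
    refine (abs_min_sub_min_le_max _ _ _ _).trans (max_le le_rfl (le_of_eq ?_))
    rw [show 1 - x - (1 - y) = -(x - y) by ring, abs_neg]
  have h2 : |min x (1 - x) / η - min y (1 - y) / η| ≤ |x - y| / η := by
    rw [← sub_div, abs_div, abs_of_pos hη]
    exact div_le_div_of_nonneg_right h1 hη.le
  have h0 : 0 ≤ |x - y| / η := by positivity
  refine (abs_max_sub_max_le_max _ _ _ _).trans (max_le (by simpa using h0) ?_)
  exact (abs_min_sub_min_le_max _ _ _ _).trans (max_le (by simpa using h0) h2)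

lemma cutA_step {η : ℝ} (hη : 0 < η) {M : ℕ} (hM : 0 < M) (d : ℕ) :
    |tz η M (d + 1) - tz η M d| ≤ 1 / (η * M) := by
  have hM' : (0 : ℝ) < M := by positivity
  refine (cutA_lip hη _ _).trans (le_of_eq ?_)
  have : (((d + 1 : ℕ) : ℝ) + 1 / 2) / M - ((d : ℝ) + 1 / 2) / M = 1 / M := by
    push_cast
    field_simp
    ring
  rw [this, abs_of_pos (by positivity)]
  field_simp

lemma cutA_first {η : ℝ} (hη : 0 < η) {M : ℕ} (hM : 0 < M) : tz η M 0 ≤ 1 / (2 * (η * M)) := by
  have hM' : (0 : ℝ) < M := by positivity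
  refine max_le (by positivity) ((min_le_right _ _).trans ?_)
  refine (div_le_div_of_nonneg_right (min_le_left _ _) hη.le).trans (le_of_eq ?_)
  rw [Nat.cast_zero, zero_add]
  field_simp

lemma cutA_last {η : ℝ} (hη : 0 < η) {M d : ℕ} (hd : d + 1 = M) :
    tz η M d ≤ 1 / (2 * (η * M)) := by
  have hM : 0 < M := by omega
  have hM' : (0 : ℝ) < M := by positivity
  refine max_le (by positivity) ((min_le_right _ _).trans ?_)
  refine (div_le_div_of_nonneg_right (min_le_right _ _) hη.le).trans (le_of_eq ?_)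
  have : (d : ℝ) = M - 1 := by rw [← hd]; push_cast; ring
  rw [this]
  field_simp
  ring

lemma tz_mult {η : ℝ} (hη : 0 < η) (hη1 : η ≤ 1) {M : ℕ} (hM : 0 < M) (a H : ℕ → ℂ) {δ β : ℝ}
    (ha : ∀ j : ℤ, ‖∑ d ∈ range M, a d * ch (j * d / M)‖ ≤ δ)
    (h1 : ∀ d < M, ‖H d‖ ≤ β) (h2 : ∀ d, d + 1 < M → ‖H (d + 1) - H d‖ ≤ 8 * β / M) :
    ‖∑ d ∈ range M, a d * (tz η M d * H d)‖ ≤ 27 * β * δ / η := by
  obtain ⟨T, hT⟩ := mult_bound one_pos
  have hM' : (0 : ℝ) < M := by positivity
  have hβ : 0 ≤ β := (norm_nonneg _).trans (h1 0 hM)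
  have hn : ∀ d, d < M → ‖(tz η M d : ℂ) * H d‖ ≤ tz η M d * β := fun d hd => by
    rw [norm_mul, Complex.norm_real, Real.norm_eq_abs, abs_of_nonneg (tz_nonneg _ _ _)]
    exact mul_le_mul_of_nonneg_left (h1 d hd) (tz_nonneg _ _ _)
  have hb : β ≤ β / η := by
    rw [le_div_iff₀ hη]
    exact mul_le_of_le_one_right hβ hη1
  have hq : 0 ≤ β / η := by positivity
  have := hT M a (fun d => (tz η M d : ℂ) * H d) δ δ (9 * β / η) hM ha (fun j _ => ha j)
    (fun d hd => by
      have h3 := (hn d hd).trans (mul_le_of_le_one_left hβ (tz_le_one η M d))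
      rw [mul_div_assoc]
      linarith)
    (fun d hd => by
      have e9 : 9 * β / η / M = 9 * (β / η / M) := by ring
      have hq' : 0 ≤ β / η / M := by positivity
      rcases Nat.lt_or_ge (d + 1) M with h | h
      · rw [Nat.mod_eq_of_lt h]
        have e : (tz η M (d + 1) : ℂ) * H (d + 1) - (tz η M d : ℂ) * H d =
            ((tz η M (d + 1) - tz η M d : ℝ) : ℂ) * H (d + 1) +
              (tz η M d : ℂ) * (H (d + 1) - H d) := by
          push_cast
          ring
        rw [e]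
        refine (norm_add_le _ _).trans ?_
        rw [norm_mul, norm_mul, Complex.norm_real, Complex.norm_real, Real.norm_eq_abs,
          Real.norm_eq_abs, abs_of_nonneg (tz_nonneg _ _ _)]
        have h3 : |tz η M (d + 1) - tz η M d| * ‖H (d + 1)‖ ≤ 1 / (η * M) * β :=
          mul_le_mul (cutA_step hη hM d) (h1 _ h) (norm_nonneg _) (by positivity)
        have h4 : tz η M d * ‖H (d + 1) - H d‖ ≤ 8 * β / M :=
          (mul_le_of_le_one_left (norm_nonneg _) (tz_le_one η M d)).trans (h2 d h)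
        have h5 : 1 / (η * M) * β = β / η / M := by field_simp
        have h6 : 8 * β / M ≤ 8 * (β / η / M) := by
          rw [mul_div_assoc]
          exact mul_le_mul_of_nonneg_left (div_le_div_of_nonneg_right hb hM'.le) (by norm_num)
        linarith
      · have hd1 : d + 1 = M := by omega
        rw [hd1, Nat.mod_self]
        refine (norm_sub_le _ _).trans ?_
        have h3 := (hn 0 hM).trans (mul_le_mul_of_nonneg_right (cutA_first hη hM) hβ)
        have h4 := (hn d hd).trans (mul_le_mul_of_nonneg_right (cutA_last hη hd1) hβ)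
        have h5 : 1 / (2 * (η * M)) * β = β / η / M / 2 := by field_simp
        linarith)
  exact this.trans (le_of_eq (by ring))

end Pool.Agent.FS.UniqCrit
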