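import Pool.Agent.FS.UniqCrit.CutA

set_option autoImplicit false

namespace Pool.Agent.FS.UniqCrit

open MeasureTheory Filter Topology Finset
open Pool.Agent.Lib.MP_c7f57c_an Pool.Agent.Lib.MP_c7f57c_an.Thr
open Pool.Agent.Lib.MP_c7f57c_an.Gen (P psi P_pos P_posR P_mono lt_P P_succ P_succR)

lemma cutB_int {M : ℕ} (hM : 2 ≤ M) (a : ℕ → ℂ) {δ : ℝ} (hδ : 0 ≤ δ)
    (h0 : ∑ d ∈ range M, a d = 0)
    (h : ∀ j : ℕ, 0 < j → j < M → ‖∑ d ∈ range M, a d * ch (j * d / M)‖ ≤ δ) (m : ℤ) :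
    ‖∑ d ∈ range M, a d * ch (m * d / M)‖ ≤ δ := by
  have hM0 : (0 : ℤ) < M := by omega
  have hM' : (M : ℝ) ≠ 0 := by positivity
  obtain ⟨j, hj⟩ := Int.eq_ofNat_of_zero_le (Int.emod_nonneg m hM0.ne')
  have hlt : j < M := by
    have := Int.emod_lt_of_pos m hM0
    omega
  have hm : (m : ℝ) = M * (m / (M : ℤ) : ℤ) + j := by
    have := Int.mul_ediv_add_emod m M
    rw [hj] at this
    exact_mod_cast this.symm
  have e : ∀ d : ℕ, ch (m * d / M) = ch (j * d / M) := fun d => by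
    have : (m : ℝ) * d / M = j * d / M + ((m / (M : ℤ) * d : ℤ) : ℝ) := by
      push_cast
      generalize ((m / (M : ℤ) : ℤ) : ℝ) = q at hm
      rw [hm]
      field_simp
      ring
    rw [this, ch_add, ch_int, mul_one]
  simp only [e]
  rcases Nat.eq_zero_or_pos j with rfl | hp
  · simp only [Nat.cast_zero, zero_mul, zero_div, ch_zero, mul_one]
    rw [h0]
    simpa using hδ
  · exact h j hp hlt

lemma cutB_avg {M : ℕ} (hM : 0 < M) (G : ℕ → ℂ) (c : ℕ → ℝ) {β : ℝ}
    (h : ∀ d < M, ‖G d‖ ≤ c d) (hc : ∑ d ∈ range M, c d ≤ β * M) :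
    ‖(∑ d ∈ range M, G d) / M‖ ≤ β := by
  have hM' : (0 : ℝ) < M := by positivity
  rw [norm_div, Complex.norm_natCast, div_le_iff₀ hM']
  exact (norm_sum_le _ _).trans ((sum_le_sum fun d hd => h d (mem_range.1 hd)).trans hc)

lemma cutB_err {η δ β : ℝ} (hη : 0 < η) (hη1 : η ≤ 1) (hδ : 0 ≤ δ) (hβ : 0 ≤ β) {M : ℕ}
    {D : Finset ℕ} {w : ℕ → ℂ} (hM : 2 ≤ M) (hD : D ⊆ range M) (hw : ∑ d ∈ D, w d = 1)
    (h : ∀ j : ℕ, 0 < j → j < M → ‖∑ d ∈ D, w d * ch (j * d / M)‖ ≤ δ) (m : ℤ) (H : ℕ → ℂ)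
    (h1 : ∀ d < M, ‖H d‖ ≤ β) (h2 : ∀ d, d + 1 < M → ‖H (d + 1) - H d‖ ≤ 8 * β / M) :
    ‖∑ d ∈ D, w d * tz η M d * (ch (m * d / M) * H d) -
      (∑ d ∈ range M, ch (m * d / M) * H d) / M‖ ≤ β * (27 * δ / η + 4 * η) := by
  have hM0 : 0 < M := by omega
  have hMc : (M : ℂ) ≠ 0 := by exact_mod_cast hM0.ne'
  set a : ℕ → ℂ := fun d => (if d ∈ D then w d else 0) - 1 / M with ha
  have sp : ∀ G : ℕ → ℂ, ∑ d ∈ range M, a d * G d =
      ∑ d ∈ D, w d * G d - (∑ d ∈ range M, G d) / M := fun G => by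
    simp only [ha, sub_mul, sum_sub_distrib, ite_mul, zero_mul]
    rw [sum_ite_mem, inter_eq_right.2 hD, sum_div]
    congr 1
    exact sum_congr rfl fun d _ => by ring
  have a0 : ∑ d ∈ range M, a d = 0 := by
    have := sp fun _ => 1
    simp only [mul_one, hw, sum_const, card_range, nsmul_eq_mul] at this
    rw [this, div_self hMc, sub_self]
  have a1 := cutB_int hM a hδ a0 fun j j0 j1 => by
    have k := Uniq.sum_ch_grid hM0 0 (m := j) fun e => by
      have := Int.le_of_dvd (by exact_mod_cast j0) e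
      omega
    rw [sp]
    simp only [add_zero, Int.cast_natCast, ← mul_div_assoc] at k
    rw [k, zero_div, sub_zero]
    exact h j j0 j1
  have b1 := tz_mult hη hη1 hM0 (fun d => a d * ch (m * d / M)) H (δ := δ) (fun j => by
    have e : ∀ d : ℕ, a d * ch (m * d / M) * ch (j * d / M) =
        a d * ch (((m + j : ℤ) : ℝ) * d / M) := fun d => by
      rw [mul_assoc, ← ch_add]
      congr 2
      push_cast
      ring
    simp only [e]
    exact a1 _) h1 h2
  have b2 := cutB_avg hM0 (fun d => ((tz η M d : ℂ) - 1) * (ch (m * d / M) * H d))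
    (fun d => β * (1 - tz η M d)) (β := β * (4 * η)) (fun d hd => by
      have e : ‖(tz η M d : ℂ) - 1‖ = 1 - tz η M d := by
        rw [← Complex.ofReal_one, ← Complex.ofReal_sub, Complex.norm_real, Real.norm_eq_abs,
          abs_sub_comm, abs_of_nonneg (sub_nonneg.2 (tz_le_one η M d))]
      rw [norm_mul, norm_mul, norm_ch, one_mul, e, mul_comm]
      exact mul_le_mul_of_nonneg_right (h1 d hd) (sub_nonneg.2 (tz_le_one η M d))) (by
      rw [← mul_sum, mul_assoc]
      exact mul_le_mul_of_nonneg_left (tz_sum hη hM0) hβ)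
  have e : ∑ d ∈ D, w d * tz η M d * (ch (m * d / M) * H d) -
      (∑ d ∈ range M, ch (m * d / M) * H d) / M =
      ∑ d ∈ range M, a d * ch (m * d / M) * (tz η M d * H d) +
        (∑ d ∈ range M, ((tz η M d : ℂ) - 1) * (ch (m * d / M) * H d)) / M := by
    have k := sp fun d => tz η M d * (ch (m * d / M) * H d)
    have k2 : ∑ d ∈ range M, a d * ch (m * d / M) * (tz η M d * H d) =
        ∑ d ∈ range M, a d * (tz η M d * (ch (m * d / M) * H d)) :=
      sum_congr rfl fun d _ => by ring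
    rw [k2, k]
    simp only [sub_mul, one_mul, sum_sub_distrib, mul_assoc]
    ring
  rw [e]
  refine (norm_add_le _ _).trans ((add_le_add b1 b2).trans (le_of_eq ?_))
  ring

lemma cutB_alg {S Z u : ℂ} {κ θ : ℝ} (hθ : 0 ≤ θ) (hκ : κ ≤ 1 / 2) (h1 : ‖S - u‖ ≤ κ)
    (h2 : ‖Z - 1‖ ≤ κ) (h3 : ‖(S - u) - (Z - 1)‖ ≤ 8 * θ * κ) (h4 : ‖1 - u‖ ≤ 8 * θ)
    (h5 : ‖u‖ ≤ 1) : Z ≠ 0 ∧ ‖S / Z‖ ≤ ‖u‖ + 32 * κ * min 1 θ := by
  have k0 : 0 ≤ κ := (norm_nonneg _).trans h1
  have z1 : 1 / 2 ≤ ‖Z‖ := by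
    have := norm_sub_norm_le (1 : ℂ) Z
    rw [norm_one, norm_sub_rev] at this
    linarith
  have z0 : 0 < ‖Z‖ := by linarith
  have z2 : Z ≠ 0 := norm_pos_iff.1 z0
  refine ⟨z2, ?_⟩
  have e : S / Z = u + ((S - u) - (Z - 1) * u) / Z := by
    field_simp
    ring
  have a1 : ‖(S - u) - (Z - 1) * u‖ ≤ 16 * κ * 1 := by
    refine (norm_sub_le _ _).trans ?_
    rw [norm_mul]
    nlinarith [mul_le_mul h2 h5 (norm_nonneg _) k0]
  have a2 : ‖(S - u) - (Z - 1) * u‖ ≤ 16 * κ * θ := by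
    have : (S - u) - (Z - 1) * u = ((S - u) - (Z - 1)) + (Z - 1) * (1 - u) := by ring
    rw [this]
    refine (norm_add_le _ _).trans ?_
    rw [norm_mul]
    nlinarith [mul_le_mul h2 h4 (norm_nonneg _) k0]
  have a3 : ‖(S - u) - (Z - 1) * u‖ ≤ 16 * κ * min 1 θ := by
    rcases min_choice 1 θ with k | k <;> rw [k]
    exacts [a1, a2]
  rw [e]
  refine (norm_add_le _ _).trans (add_le_add le_rfl ?_)
  rw [norm_div, div_le_iff₀ z0]
  have a4 : 0 ≤ 32 * κ * min 1 θ := mul_nonneg (by linarith) (le_min zero_le_one hθ)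
  nlinarith [mul_le_mul_of_nonneg_left z1 a4]

lemma cut_weights {ε : ℝ} (hε : 0 < ε) : ∃ δ : ℝ, 0 < δ ∧ ∀ (M : ℕ) (D : Finset ℕ) (w : ℕ → ℂ),
    2 ≤ M → D ⊆ range M → ∑ d ∈ D, w d = 1 →
    (∀ j : ℕ, 0 < j → j < M → ‖∑ d ∈ D, w d * ch (j * d / M)‖ ≤ δ) →
    ∃ v : ℕ → ℂ, ∑ d ∈ D, v d = 1 ∧ ∀ t : ℝ, ‖∑ d ∈ D, v d * ch (t * d)‖ ≤
      ‖∑ d ∈ range M, ch t ^ d‖ / M + ε * min 1 (M * |t - round t|) := by
  set e : ℝ := min 1 ε with he
  have e0 : 0 < e := lt_min one_pos hε
  have e1 : e ≤ 1 := min_le_left _ _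
  have e2 : e ≤ ε := min_le_right _ _
  refine ⟨e / 256 * e / (27 * 64), by positivity, fun M D w hM hD hw h => ?_⟩
  have hM0 : 0 < M := by omega
  have hMr : (0 : ℝ) < M := by positivity
  have hMc : (M : ℂ) ≠ 0 := by exact_mod_cast hM0.ne'
  have hκ : 27 * (e / 256 * e / (27 * 64)) / (e / 256) + 4 * (e / 256) = e / 32 := by
    field_simp
    ring
  have err := fun {β : ℝ} (hβ : 0 ≤ β) => cutB_err (η := e / 256) (β := β) (by positivity)
    (by linarith) (by positivity) hβ hM hD hw h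
  simp only [hκ] at err
  have key : ∀ t : ℝ, (∑ d ∈ D, w d * tz (e / 256) M d) ≠ 0 ∧
      ‖(∑ d ∈ D, w d * tz (e / 256) M d * ch (t * d)) / ∑ d ∈ D, w d * tz (e / 256) M d‖ ≤
        ‖(∑ d ∈ range M, ch (t * d)) / M‖ + 32 * (e / 32) * min 1 (M * |t - round t|) := by
    intro t
    set s : ℝ := t - round t with hs
    have c1 : ∀ d : ℕ, ch (t * d) = ch (s * d) := fun d => by
      have : t * d = s * d + ((round t * d : ℤ) : ℝ) := by
        rw [hs]
        push_cast
        ring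
      rw [this, ch_add, ch_int, mul_one]
    have c2 : ∀ d < M, ‖ch (s * d) - 1‖ ≤ 8 * (M * |s|) := fun d hd => by
      have := norm_ch_sub (s * d) 0
      rw [ch_zero, sub_zero, abs_mul, Nat.abs_cast] at this
      have d1 : (d : ℝ) ≤ M := by exact_mod_cast hd.le
      nlinarith [abs_nonneg s, mul_le_mul_of_nonneg_left d1 (abs_nonneg s)]
    have gen : ∀ t : ℝ, ‖∑ d ∈ D, w d * tz (e / 256) M d * ch (t * d) -
        (∑ d ∈ range M, ch (t * d)) / M‖ ≤ e / 32 := fun t => by
      have k := err zero_le_one (round (t * M)) (fun d => ch ((t * M - round (t * M)) * d / M))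
        (fun d _ => (norm_ch _).le) fun d _ => by
          refine (norm_ch_sub _ _).trans ?_
          have : (t * M - round (t * M)) * ((d + 1 : ℕ) : ℝ) / M -
              (t * M - round (t * M)) * d / M = (t * M - round (t * M)) / M := by
            push_cast
            ring
          rw [this, abs_div, Nat.abs_cast, mul_one, mul_div_assoc', div_le_div_iff_of_pos_right hMr]
          linarith [abs_sub_round (t * M)]
      have c : ∀ d : ℕ, ch (round (t * M) * d / M) * ch ((t * M - round (t * M)) * d / M) =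
          ch (t * d) := fun d => by
        rw [← ch_add]
        congr 1
        field_simp
        ring
      simpa only [c, one_mul] using k
    refine cutB_alg (by positivity) (by linarith) (gen t) ?_ ?_ ?_ ?_
    · have := gen 0
      simp only [zero_mul, ch_zero, mul_one, sum_const, card_range, nsmul_eq_mul] at this
      rwa [div_self hMc] at this
    · have k := err (β := 8 * (M * |s|)) (by positivity) 0 (fun d => ch (s * d) - 1) c2
        fun d _ => by
          rw [sub_sub_sub_cancel_right]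
          refine (norm_ch_sub _ _).trans ?_
          have : s * ((d + 1 : ℕ) : ℝ) - s * d = s := by
            push_cast
            ring
          rw [this, le_div_iff₀ hMr]
          nlinarith [mul_nonneg hMr.le (abs_nonneg s)]
      refine le_trans (le_of_eq ?_) k
      congr 1
      simp only [c1, Int.cast_zero, zero_mul, zero_div, ch_zero, one_mul, mul_sub, mul_one,
        sum_sub_distrib, sum_const, card_range, nsmul_eq_mul]
      field_simp
      ring
    · have k := cutB_avg hM0 (fun d => ch (s * d) - 1) (fun _ => 8 * (M * |s|))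
        (β := 8 * (M * |s|)) c2 (by simp [mul_comm])
      rw [norm_sub_rev]
      refine le_trans (le_of_eq ?_) k
      congr 1
      simp only [c1, sum_sub_distrib, sum_const, card_range, nsmul_eq_mul]
      field_simp
    · exact cutB_avg hM0 _ (fun _ => 1) (fun d _ => (norm_ch _).le) (by simp)
  refine ⟨fun d => w d * tz (e / 256) M d / ∑ d ∈ D, w d * tz (e / 256) M d, ?_, fun t => ?_⟩
  · rw [← sum_div, div_self (key 0).1]
  · have k := (key t).2
    have c : ∀ d : ℕ, ch (t * d) = ch t ^ d := fun d => by rw [mul_comm, ch_nat_mul]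
    rw [norm_div (∑ d ∈ range M, ch (t * d)), Complex.norm_natCast, sum_div] at k
    simp only [div_mul_eq_mul_div]
    refine k.trans (add_le_add (by simp only [c]; exact le_rfl) ?_)
    exact mul_le_mul_of_nonneg_right (by linarith) (le_min zero_le_one (by positivity))

end Pool.Agent.FS.UniqCrit
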