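import Pool.Agent.Lib.MP_c7f57c_an.Sparse
import Pool.Agent.Lib.MP_c7f57c_an.Thin

set_option autoImplicit false

namespace Pool.Agent.FS.UniqCrit

open MeasureTheory Filter Topology Finset
open Pool.Agent.Lib.MP_c7f57c_an Pool.Agent.Lib.MP_c7f57c_an.Thr
open Pool.Agent.Lib.MP_c7f57c_an.Gen (P psi P_pos P_posR P_mono lt_P P_succ P_succR)

/-- discrete Fourier coefficient modulo `N` -/
noncomputable def hat (N : ℕ) (F : ℕ → ℂ) (j : ℕ) : ℂ :=
  (∑ d ∈ range N, F d * ch (-(j * d / N))) / N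

lemma Hat_orth {N d e : ℕ} (hd : d < N) (he : e < N) :
    ∑ j ∈ range N, ch (-(j * e / N)) * ch (j * d / N) = if e = d then (N : ℂ) else 0 := by
  have hN : 0 < N := by omega
  split_ifs with h
  · subst h
    have h1 : ∀ j : ℕ, ch (-(j * e / N)) * ch (j * e / N) = 1 := fun j => by
      rw [← ch_add, neg_add_cancel, ch_zero]
    rw [sum_congr rfl fun j _ => h1 j, sum_const, card_range, nsmul_eq_mul, mul_one]
  · have hm : ¬ (N : ℤ) ∣ ((d : ℤ) - e) := fun hm => by
      have h1 : ((d : ℤ) - e) = 0 :=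
        Int.eq_zero_of_abs_lt_dvd hm (by rw [abs_lt]; constructor <;> omega)
      omega
    rw [← Uniq.sum_ch_grid hN 0 hm]
    refine sum_congr rfl fun j _ => ?_
    rw [← ch_add]; congr 1; push_cast; ring

lemma hat_inv {N : ℕ} (F : ℕ → ℂ) {d : ℕ} (hd : d < N) :
    F d = ∑ j ∈ range N, hat N F j * ch (j * d / N) := by
  have hN : (N : ℂ) ≠ 0 := by exact_mod_cast (by omega : N ≠ 0)
  have h1 : ∑ j ∈ range N, hat N F j * ch (j * d / N) =
      (∑ e ∈ range N, F e * ∑ j ∈ range N, ch (-(j * e / N)) * ch (j * d / N)) / N := by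
    simp only [hat, mul_sum, sum_div, sum_mul]
    rw [sum_comm]
    refine sum_congr rfl fun e _ => sum_congr rfl fun j _ => ?_
    ring
  have h2 : ∑ e ∈ range N, F e * ∑ j ∈ range N, ch (-(j * e / N)) * ch (j * d / N) =
      ∑ e ∈ range N, if e = d then F d * N else 0 := by
    refine sum_congr rfl fun e he => ?_
    rw [Hat_orth hd (mem_range.1 he)]
    split_ifs with h
    · rw [h]
    · rw [mul_zero]
  rw [h1, h2, sum_ite_eq' (range N) d, if_pos (mem_range.2 hd), mul_div_assoc, div_self hN,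
    mul_one]

lemma hat_parseval {N : ℕ} (hN : 0 < N) (F : ℕ → ℂ) :
    ∑ j ∈ range N, ‖hat N F j‖ ^ 2 = (∑ d ∈ range N, ‖F d‖ ^ 2) / N := by
  have hc : ∀ j : ℕ, (starRingEnd ℂ) (hat N F j) =
      (∑ d ∈ range N, (starRingEnd ℂ) (F d) * ch (j * d / N)) / N := fun j => by
    rw [hat, map_div₀, map_sum, Complex.conj_natCast]
    congr 1
    refine sum_congr rfl fun d _ => ?_
    rw [map_mul, ← ch_neg, neg_neg]
  have h : ∑ j ∈ range N, hat N F j * (starRingEnd ℂ) (hat N F j) =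
      (∑ d ∈ range N, F d * (starRingEnd ℂ) (F d)) / N := by
    have h2 : ∑ d ∈ range N, F d * (starRingEnd ℂ) (F d) =
        ∑ d ∈ range N, (∑ j ∈ range N, hat N F j * ch (j * d / N)) * (starRingEnd ℂ) (F d) :=
      sum_congr rfl fun d hd => by rw [← hat_inv F (mem_range.1 hd)]
    rw [h2]
    simp only [hc, sum_mul, mul_sum, sum_div]
    rw [sum_comm]
    refine sum_congr rfl fun d _ => sum_congr rfl fun j _ => ?_
    ring
  simp only [Complex.mul_conj, Complex.normSq_eq_norm_sq] at h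
  exact_mod_cast h

lemma hat_diff {N : ℕ} (hN : 0 < N) (F : ℕ → ℂ) (j : ℕ) :
    hat N (fun d => F ((d + 1) % N) - F d) j = (ch (j / N) - 1) * hat N F j := by
  have hNR : (N : ℝ) ≠ 0 := by exact_mod_cast hN.ne'
  obtain ⟨g, hg⟩ : ∃ g : ℕ → ℂ, ∀ d : ℕ, g d = F (d % N) * ch (-(j * d / N)) :=
    ⟨fun d => F (d % N) * ch (-(j * d / N)), fun _ => rfl⟩
  have h0 : g N = g 0 := by
    have h1 : ch (-((j : ℝ) * N / N)) = 1 := by
      rw [mul_div_assoc, div_self hNR, mul_one]
      have h2 := ch_int (-(j : ℤ))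
      push_cast at h2
      exact h2
    have h3 : ch (-((j : ℝ) * (0 : ℕ) / N)) = 1 := by
      rw [Nat.cast_zero, mul_zero, zero_div, neg_zero, ch_zero]
    rw [hg, hg, h1, h3, Nat.mod_self, Nat.zero_mod]
  have h1 : ∑ d ∈ range N, g (d + 1) = ∑ d ∈ range N, g d := by
    have a := sum_range_succ g N
    have b := sum_range_succ' g N
    rw [a, h0] at b
    exact (add_right_cancel b).symm
  have h2 : ∑ d ∈ range N, g d = ∑ d ∈ range N, F d * ch (-(j * d / N)) :=
    sum_congr rfl fun d hd => by rw [hg, Nat.mod_eq_of_lt (mem_range.1 hd)]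
  have h3 : ∑ d ∈ range N, F ((d + 1) % N) * ch (-(j * d / N)) =
      ch (j / N) * ∑ d ∈ range N, g (d + 1) := by
    rw [mul_sum]
    refine sum_congr rfl fun d _ => ?_
    have h4 : ch (-((j : ℝ) * d / N)) = ch (j / N) * ch (-(j * ((d + 1 : ℕ) : ℝ) / N)) := by
      rw [← ch_add]; congr 1; push_cast; ring
    rw [hg, h4]; ring
  simp only [hat, sub_mul, sum_sub_distrib]
  rw [h3, h1, h2]; ring

end Pool.Agent.FS.UniqCrit
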