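import Pool.Agent.FS.UniqCrit.Hat

set_option autoImplicit false

namespace Pool.Agent.FS.UniqCrit

open MeasureTheory Filter Topology Finset
open Pool.Agent.Lib.MP_c7f57c_an Pool.Agent.Lib.MP_c7f57c_an.Thr
open Pool.Agent.Lib.MP_c7f57c_an.Gen (P psi P_pos P_posR P_mono lt_P P_succ P_succR)

lemma exists_level {M : ℕ → ℕ} (hM : ∀ n, 2 ≤ M n) {D : ℕ → Finset ℕ}
    (hD : ∀ n, D n ⊆ range (M n)) (hne : ∀ n, (D n).Nonempty) (v : ℕ → ℕ → ℂ) (N : ℕ) :
    ∃ a : ℕ → ℂ, (∀ t : ℝ, ∑ r ∈ range (P M N), a r * ch (t * r / P M N) =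
        ∏ n ∈ range N, ∑ d ∈ D n, v n d * ch (t / P M (n + 1) * d)) ∧
      ∀ r < P M N, a r ≠ 0 → ∃ d : ℕ → ℕ, (∀ n, d n ∈ D n) ∧
        ∑ n ∈ range N, (d n : ℝ) / P M (n + 1) = r / P M N := by
  classical
  induction N with
  | zero =>
    refine ⟨fun _ => 1, fun t => by simp [P, ch_zero], fun r hr _ => ?_⟩
    have hr0 : r = 0 := by simpa [P] using hr
    exact ⟨fun n => (hne n).choose, fun n => (hne n).choose_spec, by simp [hr0]⟩
  | succ N ih =>
    obtain ⟨a, ha, hb⟩ := ih
    have hm : 0 < M N := by have := hM N; omega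
    have hmR : (0 : ℝ) < M N := by exact_mod_cast hm
    have hP := P_posR hM N
    refine ⟨fun i => a (i / M N) * (if i % M N ∈ D N then v N (i % M N) else 0), fun t => ?_,
      fun r hr h0 => ?_⟩
    · rw [prod_range_succ, ← ha, P_succ, sum_range_mul', sum_comm, sum_mul]
      refine sum_congr rfl fun r _ => ?_
      have h1 : ∑ d ∈ D N, v N d * ch (t / ((P M N * M N : ℕ) : ℝ) * d) = ∑ d ∈ range (M N),
          (if d ∈ D N then v N d else 0) * ch (t / ((P M N * M N : ℕ) : ℝ) * d) := by
        simp only [ite_mul, zero_mul]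
        rw [← sum_filter, filter_mem_eq_inter, inter_eq_right.2 (hD N)]
      rw [h1, mul_sum]
      refine sum_congr rfl fun d hd => ?_
      have hd' := mem_range.1 hd
      have e1 : (r * M N + d) / M N = r := by
        rw [add_comm, Nat.add_mul_div_right _ _ hm, Nat.div_eq_of_lt hd', zero_add]
      have e2 : (r * M N + d) % M N = d := by
        rw [add_comm, Nat.add_mul_mod_self_right, Nat.mod_eq_of_lt hd']
      have e3 : t * ((r * M N + d : ℕ) : ℝ) / ((P M N * M N : ℕ) : ℝ) =
          t * r / P M N + t / ((P M N * M N : ℕ) : ℝ) * d := by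
        push_cast; field_simp
      simp only [e1, e2]
      rw [e3, ch_add]; ring
    · have h1 : a (r / M N) ≠ 0 := left_ne_zero_of_mul h0
      have h2 : r % M N ∈ D N := by
        by_contra h; exact h0 (by simp [h])
      have h3 : r / M N < P M N := by
        rw [P_succ] at hr; exact Nat.div_lt_of_lt_mul (by rwa [mul_comm] at hr)
      obtain ⟨d, hd, hs⟩ := hb _ h3 h1
      refine ⟨Function.update d N (r % M N), fun n => ?_, ?_⟩
      · by_cases h : n = N
        · subst h; simpa using h2
        · rw [Function.update_of_ne h]; exact hd n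
      · rw [sum_range_succ, Function.update_self, sum_congr rfl (g := fun n => (d n : ℝ) / P M (n + 1))
          (fun n hn => by rw [Function.update_of_ne (mem_range.1 hn).ne]), hs, P_succR]
        have e : (r : ℝ) = ((r / M N : ℕ) : ℝ) * M N + ((r % M N : ℕ) : ℝ) := by
          exact_mod_cast (Nat.div_add_mod' r (M N)).symm
        generalize r / M N = q at e ⊢
        generalize r % M N = s at e ⊢
        rw [e]; field_simp

end Pool.Agent.FS.UniqCrit
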