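import Pool.Agent.FS.UniqCrit.Mult

set_option autoImplicit false

namespace Pool.Agent.FS.UniqCrit

open MeasureTheory Filter Topology Finset
open Pool.Agent.Lib.MP_c7f57c_an Pool.Agent.Lib.MP_c7f57c_an.Thr
open Pool.Agent.Lib.MP_c7f57c_an.Gen (P psi P_pos P_posR P_mono lt_P P_succ P_succR)

/-- a Lipschitz periodic extension of `1 / (ch z - 1)` -/
lemma exists_ext {δ : ℝ} (hδ : 0 < δ) : ∃ (G : ℝ → ℂ) (B : ℝ), (∀ z, G (z + 1) = G z) ∧
    (∀ z, ‖G z‖ ≤ B) ∧ (∀ z y, ‖G z - G y‖ ≤ B * |z - y|) ∧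
    ∀ z, δ ≤ ‖ch z - 1‖ → G z * (ch z - 1) = 1 := by
  set m : ℝ → ℝ := fun z => max (‖ch z - 1‖ ^ 2) (δ ^ 2) with hm
  have d2 : 0 < δ ^ 2 := by positivity
  have m1 : ∀ z, δ ^ 2 ≤ m z := fun z => le_max_right _ _
  have m0 : ∀ z, 0 < m z := fun z => d2.trans_le (m1 z)
  have u2 : ∀ z, ‖ch z - 1‖ ≤ 2 := fun z =>
    (norm_sub_le _ _).trans (by rw [norm_ch, norm_one]; norm_num)
  have i1 : ∀ z, |(m z)⁻¹| ≤ (δ ^ 2)⁻¹ := fun z => by
    rw [abs_of_pos (inv_pos.2 (m0 z))]; exact inv_anti₀ d2 (m1 z)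
  have ud : ∀ z y, ‖(ch z - 1) - (ch y - 1)‖ ≤ 8 * |z - y| := fun z y => by
    rw [sub_sub_sub_cancel_right]; exact norm_ch_sub z y
  have md : ∀ z y, |m z - m y| ≤ 32 * |z - y| := fun z y => by
    refine (abs_max_sub_max_le_abs _ _ _).trans ?_
    rw [sq_sub_sq, abs_mul]
    have a1 : |‖ch z - 1‖ + ‖ch y - 1‖| ≤ 4 := by
      rw [abs_of_nonneg (by positivity)]; linarith [u2 z, u2 y]
    have a2 : |‖ch z - 1‖ - ‖ch y - 1‖| ≤ 8 * |z - y| :=
      (abs_norm_sub_norm_le _ _).trans (ud z y)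
    calc _ ≤ 4 * (8 * |z - y|) := mul_le_mul a1 a2 (abs_nonneg _) (by norm_num)
      _ = _ := by ring
  have id' : ∀ z y, |(m z)⁻¹ - (m y)⁻¹| ≤ 32 * |z - y| * ((δ ^ 2)⁻¹ * (δ ^ 2)⁻¹) := fun z y => by
    have e : (m z)⁻¹ - (m y)⁻¹ = (m y - m z) * ((m z)⁻¹ * (m y)⁻¹) := by
      have := (m0 z).ne'
      have := (m0 y).ne'
      field_simp
    rw [e, abs_mul, abs_mul, abs_sub_comm]
    exact mul_le_mul (md z y) (mul_le_mul (i1 z) (i1 y) (abs_nonneg _) (by positivity))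
      (by positivity) (by positivity)
  have j0 : 0 ≤ (δ ^ 2)⁻¹ := by positivity
  refine ⟨fun z => (starRingEnd ℂ) (ch z - 1) * (((m z)⁻¹ : ℝ) : ℂ),
    8 * (δ ^ 2)⁻¹ + 64 * ((δ ^ 2)⁻¹ * (δ ^ 2)⁻¹), fun z => ?_, fun z => ?_, fun z y => ?_,
    fun z hz => ?_⟩
  · have e : ch (z + 1) = ch z := by
      have := ch_int 1
      rw [Int.cast_one] at this
      rw [ch_add, this, mul_one]
    simp only [hm, e]
  · rw [norm_mul, RCLike.norm_conj, Complex.norm_real, Real.norm_eq_abs]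
    have := mul_le_mul (u2 z) (i1 z) (abs_nonneg _) (by norm_num)
    nlinarith [mul_nonneg j0 j0]
  · have e : (starRingEnd ℂ) (ch z - 1) * (((m z)⁻¹ : ℝ) : ℂ) -
        (starRingEnd ℂ) (ch y - 1) * (((m y)⁻¹ : ℝ) : ℂ) =
        (starRingEnd ℂ) ((ch z - 1) - (ch y - 1)) * (((m z)⁻¹ : ℝ) : ℂ) +
        (starRingEnd ℂ) (ch y - 1) * (((m z)⁻¹ - (m y)⁻¹ : ℝ) : ℂ) := by
      rw [map_sub (starRingEnd ℂ) (ch z - 1), Complex.ofReal_sub]; ring
    simp only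
    rw [e]
    refine (norm_add_le _ _).trans ?_
    rw [norm_mul, norm_mul, RCLike.norm_conj, RCLike.norm_conj, Complex.norm_real,
      Complex.norm_real, Real.norm_eq_abs, Real.norm_eq_abs]
    have a1 := mul_le_mul (ud z y) (i1 z) (abs_nonneg _) (by positivity)
    have a2 := mul_le_mul (u2 y) (id' z y) (abs_nonneg _) (by norm_num)
    calc _ ≤ 8 * |z - y| * (δ ^ 2)⁻¹ + 2 * (32 * |z - y| * ((δ ^ 2)⁻¹ * (δ ^ 2)⁻¹)) :=
          add_le_add a1 a2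
      _ = _ := by ring
  · have h1 : δ ^ 2 ≤ ‖ch z - 1‖ ^ 2 := pow_le_pow_left₀ hδ.le hz 2
    have h2 : m z = Complex.normSq (ch z - 1) := by
      rw [Complex.normSq_eq_norm_sq]; exact max_eq_left h1
    have h3 : ch z - 1 ≠ 0 := fun h => by rw [h, norm_zero] at hz; linarith
    simp only
    rw [h2, ← Complex.inv_def, inv_mul_cancel₀ h3]

lemma locb_geom (z : ℝ) (J : ℕ) (hJ : 1 ≤ J) :
    (∑ k ∈ Finset.Ioo (-(J : ℤ)) J, ch (k * z)) * (ch z - 1) =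
      ch (((J : ℤ) : ℝ) * z) - ch (((1 - J : ℤ) : ℝ) * z) := by
  induction J, hJ using Nat.le_induction with
  | base =>
    have h : Finset.Ioo (-((1 : ℕ) : ℤ)) (1 : ℕ) = {0} := by
      ext k
      simp only [Finset.mem_Ioo, Finset.mem_singleton]
      omega
    rw [h, Finset.sum_singleton]
    simp [ch_zero]
  | succ J hJ ih =>
    have h : Finset.Ioo (-((J + 1 : ℕ) : ℤ)) (J + 1 : ℕ) =
        insert (J : ℤ) (insert (-(J : ℤ)) (Finset.Ioo (-(J : ℤ)) J)) := by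
      ext k
      simp only [Finset.mem_Ioo, Finset.mem_insert]
      omega
    rw [h, Finset.sum_insert (by simp only [Finset.mem_Ioo, Finset.mem_insert]; omega),
      Finset.sum_insert (by simp only [Finset.mem_Ioo]; omega), add_mul, add_mul, ih]
    have e1 : ch ((((J + 1 : ℕ) : ℤ) : ℝ) * z) = ch (((J : ℤ) : ℝ) * z) * ch z := by
      rw [← ch_add]; congr 1; push_cast; ring
    have e2 : ch (((1 - J : ℤ) : ℝ) * z) = ch (((-(J : ℤ) : ℤ) : ℝ) * z) * ch z := by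
      rw [← ch_add]; congr 1; push_cast; ring
    have e3 : ch (((1 - (J + 1 : ℕ) : ℤ) : ℝ) * z) = ch (((-(J : ℤ) : ℤ) : ℝ) * z) := by
      congr 1; push_cast; ring
    rw [e1, e2, e3]
    ring

lemma locb_term {η : ℝ} (hη : 0 < η) : ∃ T : ℕ, ∀ (Q : ℕ) (a : ℕ → ℂ) (G : ℝ → ℂ) (δ B x : ℝ)
    (K : ℤ), 0 < Q → (∀ k : ℤ, ‖∑ r ∈ range Q, a r * ch (k * r / Q)‖ ≤ 2) →
    (∀ j : ℤ, |j| ≤ T → ‖∑ r ∈ range Q, a r * ch ((K + j : ℤ) * r / Q)‖ ≤ δ) →
    (∀ z, G (z + 1) = G z) → (∀ z, ‖G z‖ ≤ B) → (∀ z y, ‖G z - G y‖ ≤ B * |z - y|) →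
    ‖∑ r ∈ range Q, a r * (ch (K * (r / Q - x)) * G (r / Q - x))‖ ≤ B * (2 * δ + η * 2) := by
  obtain ⟨T, hT⟩ := mult_bound hη
  refine ⟨T, fun Q a G δ B x K hQ hb hs g1 g2 g3 => ?_⟩
  have hQ0 : (0 : ℝ) < Q := by exact_mod_cast hQ
  have e : ∀ j : ℤ, ∑ r ∈ range Q, a r * ch (K * r / Q) * ch (j * r / Q) =
      ∑ r ∈ range Q, a r * ch ((K + j : ℤ) * r / Q) := by
    intro j
    refine Finset.sum_congr rfl fun r _ => ?_
    rw [mul_assoc, ← ch_add]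
    congr 2
    push_cast
    ring
  have h := hT Q (fun r => a r * ch (K * r / Q)) (fun r => G (r / Q - x)) 2 δ B hQ
    (fun j => by rw [e]; exact hb _) (fun j hj => by rw [e]; exact hs j hj) (fun d _ => g2 _)
    (fun d hd => by
      have e1 : G ((((d + 1) % Q : ℕ) : ℝ) / Q - x) = G (((d : ℝ) + 1) / Q - x) := by
        rcases Nat.lt_or_ge (d + 1) Q with h | h
        · rw [Nat.mod_eq_of_lt h, Nat.cast_succ]
        · have h' : d + 1 = Q := by omega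
          have h'' : (d : ℝ) + 1 = Q := by exact_mod_cast h'
          rw [h', Nat.mod_self, h'', div_self hQ0.ne', ← g1]
          congr 1
          simp only [Nat.cast_zero, zero_div]
          ring
      rw [e1]
      refine (g3 _ _).trans (le_of_eq ?_)
      have e2 : ((d : ℝ) + 1) / Q - x - (d / Q - x) = 1 / Q := by ring
      rw [e2, abs_of_pos (by positivity), mul_one_div])
  have e3 : ∑ r ∈ range Q, a r * (ch (K * (r / Q - x)) * G (r / Q - x)) =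
      ch (-(K * x)) * ∑ r ∈ range Q, a r * ch (K * r / Q) * G (r / Q - x) := by
    rw [Finset.mul_sum]
    refine Finset.sum_congr rfl fun r _ => ?_
    have e4 : ch (K * (r / Q - x)) = ch (-(K * x)) * ch (K * r / Q) := by
      rw [← ch_add]; congr 1; ring
    rw [e4]
    ring
  rw [e3, norm_mul, norm_ch, one_mul]
  exact h

lemma localise (Q : ℕ → ℕ) (a : ℕ → ℕ → ℂ) (c : ℤ → ℂ) (U : Filter ℕ) [U.NeBot] (hU : U ≤ atTop)
    (hQ : ∀ N, 0 < Q N)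
    (hc : ∀ k : ℤ, Tendsto (fun N => ∑ r ∈ range (Q N), a N r * ch (k * r / Q N)) U (𝓝 (c k)))
    (hb : ∀ N, ∀ k : ℤ, ‖∑ r ∈ range (Q N), a N r * ch (k * r / Q N)‖ ≤ 2)
    (hz : ∀ ε : ℝ, 0 < ε → ∃ R : ℝ, ∀ k : ℤ, R ≤ |(k : ℝ)| →
      ∀ᶠ N in atTop, ‖∑ r ∈ range (Q N), a N r * ch (k * r / Q N)‖ ≤ ε)
    (x δ : ℝ) (hδ : 0 < δ)
    (hx : ∀ᶠ N in atTop, ∀ r < Q N, a N r ≠ 0 → δ ≤ ‖ch (r / Q N - x) - 1‖) :
    Tendsto (fun J : ℕ => ∑ k ∈ Finset.Ioo (-(J : ℤ)) J, c k * ch (-(k * x))) atTop (𝓝 0) := by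
  obtain ⟨G, B, g1, g2, g3, g4⟩ := exists_ext hδ
  have hB : 0 ≤ B := (norm_nonneg _).trans (g2 0)
  refine NormedAddGroup.tendsto_nhds_zero.2 fun ε hε => ?_
  obtain ⟨η, hηd⟩ : ∃ η : ℝ, η = ε / (16 * (B + 1)) := ⟨_, rfl⟩
  have hη : 0 < η := by rw [hηd]; positivity
  have hηε : 16 * (B + 1) * η = ε := by rw [hηd]; field_simp
  obtain ⟨T, hT⟩ := locb_term hη
  obtain ⟨R, hR⟩ := hz η hη
  refine (eventually_ge_atTop (⌈R⌉₊ + T + 1)).mono fun J hJ => ?_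
  have hR' : R ≤ ((⌈R⌉₊ : ℤ) : ℝ) := by exact_mod_cast Nat.le_ceil R
  have hev : ∀ K : ℤ, (∀ j : ℤ, |j| ≤ T → (⌈R⌉₊ : ℤ) ≤ |K + j|) → ∀ᶠ N in atTop,
      ‖∑ r ∈ range (Q N), a N r * (ch (K * (r / Q N - x)) * G (r / Q N - x))‖ ≤
        B * (2 * η + η * 2) := by
    intro K hK
    have h1 : ∀ᶠ N in atTop, ∀ j ∈ Finset.Icc (-(T : ℤ)) T,
        ‖∑ r ∈ range (Q N), a N r * ch ((K + j : ℤ) * r / Q N)‖ ≤ η := by
      refine (Filter.eventually_all_finset _).2 fun j hj => hR _ (hR'.trans ?_)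
      have h2 := hK j (abs_le.2 (Finset.mem_Icc.1 hj))
      exact_mod_cast h2
    exact h1.mono fun N hN => hT (Q N) (a N) G η B x K (hQ N) (hb N)
      (fun j hj => hN j (Finset.mem_Icc.2 (abs_le.1 hj))) g1 g2 g3
  have h1 := hev J fun j hj => by
    have := abs_le.1 hj
    exact le_abs.2 (Or.inl (by omega))
  have h2 := hev (1 - J) fun j hj => by
    have := abs_le.1 hj
    exact le_abs.2 (Or.inr (by omega))
  have h3 : ∀ᶠ N in atTop, ‖∑ k ∈ Finset.Ioo (-(J : ℤ)) J,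
      (∑ r ∈ range (Q N), a N r * ch (k * r / Q N)) * ch (-(k * x))‖ ≤ 8 * B * η := by
    filter_upwards [h1, h2, hx] with N b1 b2 b3
    have e : ∑ k ∈ Finset.Ioo (-(J : ℤ)) J,
        (∑ r ∈ range (Q N), a N r * ch (k * r / Q N)) * ch (-(k * x)) =
        ∑ r ∈ range (Q N), a N r * (ch (((J : ℤ) : ℝ) * (r / Q N - x)) * G (r / Q N - x)) -
        ∑ r ∈ range (Q N),
          a N r * (ch (((1 - J : ℤ) : ℝ) * (r / Q N - x)) * G (r / Q N - x)) := by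
      simp only [Finset.sum_mul]
      rw [Finset.sum_comm, ← Finset.sum_sub_distrib]
      refine Finset.sum_congr rfl fun r hr => ?_
      by_cases h0 : a N r = 0
      · simp only [h0, zero_mul, Finset.sum_const_zero, sub_self]
      · have e1 : ∑ k ∈ Finset.Ioo (-(J : ℤ)) J, a N r * ch (k * r / Q N) * ch (-(k * x)) =
            a N r * ∑ k ∈ Finset.Ioo (-(J : ℤ)) J, ch (k * (r / Q N - x)) := by
          rw [Finset.mul_sum]
          refine Finset.sum_congr rfl fun k _ => ?_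
          rw [mul_assoc, ← ch_add]
          congr 2
          ring
        have e2 := locb_geom (r / Q N - x) J (by omega)
        have e3 := g4 _ (b3 r (Finset.mem_range.1 hr) h0)
        rw [e1, ← mul_sub, ← sub_mul, ← e2, mul_assoc, mul_comm _ (G _), e3, mul_one]
    rw [e]
    refine (norm_sub_le _ _).trans ?_
    linarith
  have h4 : Tendsto (fun N => ‖∑ k ∈ Finset.Ioo (-(J : ℤ)) J,
      (∑ r ∈ range (Q N), a N r * ch (k * r / Q N)) * ch (-(k * x))‖) U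
      (𝓝 ‖∑ k ∈ Finset.Ioo (-(J : ℤ)) J, c k * ch (-(k * x))‖) :=
    (tendsto_finsetSum _ fun k _ => (hc k).mul_const _).norm
  have h5 := le_of_tendsto h4 (h3.filter_mono hU)
  have h6 : 0 ≤ B * η := mul_nonneg hB hη.le
  nlinarith

end Pool.Agent.FS.UniqCrit
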