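import Pool.Agent.FS.UniqCrit.ProdA

set_option autoImplicit false

namespace Pool.Agent.FS.UniqCrit

open MeasureTheory Filter Topology Finset
open Pool.Agent.Lib.MP_c7f57c_an Pool.Agent.Lib.MP_c7f57c_an.Thr
open Pool.Agent.Lib.MP_c7f57c_an.Gen (P psi P_pos P_posR P_mono lt_P P_succ P_succR)

lemma prodb_abs (M : ℕ → ℕ) (n : ℕ) (t : ℝ) : psi M n |t| = psi M n t := by
  rcases abs_choice t with h | h
  · rw [h]
  · rw [h]
    unfold psi
    rw [neg_div, ch_neg, ← RCLike.norm_conj, map_sum]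
    simp only [map_pow, Complex.conj_conj]

lemma prodb_win (g : ℕ → ℝ) (h0 : ∀ i, 0 ≤ g i) (h1 : ∀ i, g i ≤ 1) {e : ℝ} (he : 0 ≤ e) (K : ℕ) :
    ∏ i ∈ range K, (g i + e) ≤ ∏ i ∈ range K, g i + ((1 + e) ^ K - 1) := by
  induction K with
  | zero => simp
  | succ K ih =>
    have a1 : ∏ i ∈ range K, g i ≤ 1 := prod_le_one (fun i _ => h0 i) fun i _ => h1 i
    have a2 : (1 : ℝ) ≤ (1 + e) ^ K := one_le_pow₀ (by linarith)
    have a3 := mul_le_mul_of_nonneg_right ih (add_nonneg (h0 K) he)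
    have a4 := mul_le_mul_of_nonneg_left (h1 K) (sub_nonneg.2 a2)
    have a5 := mul_le_mul_of_nonneg_right a1 he
    rw [prod_range_succ, prod_range_succ, pow_succ]
    nlinarith

lemma prodb_small (K : ℕ) {η : ℝ} (hη : 0 < η) : ∃ e : ℝ, 0 < e ∧ (1 + e) ^ K - 1 < η := by
  have h1 : Continuous fun e : ℝ => (1 + e) ^ K - 1 := by fun_prop
  have h2 : ∀ᶠ e : ℝ in 𝓝 0, (1 + e) ^ K - 1 < η :=
    (h1.tendsto 0).eventually (gt_mem_nhds (by simpa using hη))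
  obtain ⟨e, h3, h4⟩ := ((h2.filter_mono (nhdsWithin_le_nhds (s := Set.Ioi 0))).and
    self_mem_nhdsWithin).exists
  exact ⟨e, h4, h3⟩

lemma prod_decay {M : ℕ → ℕ} (hM : ∀ n, 2 ≤ M n) (f : ℕ → ℝ → ℝ) (h0 : ∀ n t, 0 ≤ f n t) (n0 : ℕ)
    (h1 : ∀ n < n0, ∀ t, f n t ≤ 1)
    (h2 : ∀ n, n0 ≤ n → ∀ t, f n t ≤ psi M n t + 1 / 100 * th M n t)
    (h3 : ∀ ε : ℝ, 0 < ε → ∀ᶠ n in atTop, ∀ t, f n t ≤ psi M n t + ε) :
    (∀ N t, ∏ n ∈ range N, f n t ≤ 2) ∧ ∀ ε : ℝ, 0 < ε → ∃ R : ℝ, ∀ t : ℝ, R ≤ |t| →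
      ∀ᶠ N in atTop, ∏ n ∈ range N, f n t ≤ ε := by
  have tail : ∀ m K t, n0 ≤ m → ∏ i ∈ range K, f (m + i) t ≤ 2 := fun m K t hm =>
    (prod_le_prod (fun i _ => h0 _ _) fun i _ => h2 (m + i) (by omega) t).trans
      (prod_bdd hM t m K)
  have all : ∀ N t, ∏ n ∈ range N, f n t ≤ 2 := fun N t => by
    have small : ∀ K ≤ n0, ∏ n ∈ range K, f n t ≤ 1 := fun K hK =>
      prod_le_one (fun i _ => h0 _ _) fun i hi => h1 i (by have := mem_range.1 hi; omega) t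
    rcases le_total N n0 with h | h
    · exact (small N h).trans one_le_two
    · obtain ⟨K, rfl⟩ := Nat.exists_eq_add_of_le h
      rw [prod_range_add]
      exact (mul_le_mul (small n0 le_rfl) (tail n0 K t le_rfl) (prod_nonneg fun i _ => h0 _ _)
        zero_le_one).trans (by norm_num)
  refine ⟨all, fun ε hε => ?_⟩
  obtain ⟨L, hL⟩ := exists_nat_one_div_lt (show 0 < ε / 8 by positivity)
  obtain ⟨e, he, he'⟩ := prodb_small (L + 1) (show 0 < ε / 8 by positivity)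
  obtain ⟨m1, hm1⟩ := eventually_atTop.1 (h3 e he)
  refine ⟨P M (m1 + n0 + L), fun t hk => ?_⟩
  have hex : ∃ m, 2 * |t| ≤ P M m := ⟨⌈2 * |t|⌉₊, (Nat.le_ceil _).trans (by
    exact_mod_cast (lt_P hM _).le)⟩
  classical
  have hm := Nat.find_spec hex
  have hQp := P_posR hM (m1 + n0 + L)
  have hlarge : m1 + n0 + L + 1 ≤ Nat.find hex := by
    by_contra hc
    have : (P M (Nat.find hex) : ℝ) ≤ P M (m1 + n0 + L) := by
      exact_mod_cast P_mono hM (show Nat.find hex ≤ m1 + n0 + L by omega)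
    linarith
  obtain ⟨m, hn⟩ : ∃ m, Nat.find hex = m + (L + 1) := ⟨Nat.find hex - (L + 1), by omega⟩
  have hm' := Nat.find_min hex (show m + L < Nat.find hex by omega)
  rw [hn] at hm
  have b1 := Gen.prod_psi_le hM m L |t| (not_le.1 hm').le hm
  simp only [prodb_abs] at b1
  have b2 : ∏ i ∈ range (L + 1), f (m + i) t ≤ ε / 4 := by
    have b3 := prodb_win (fun i => psi M (m + i) t) (fun i => Gen.psi_nonneg _ _ _)
      (fun i => Gen.psi_le _ _ _) he.le (L + 1)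
    have b4 : ∏ i ∈ range (L + 1), f (m + i) t ≤ ∏ i ∈ range (L + 1), (psi M (m + i) t + e) :=
      prod_le_prod (fun i _ => h0 _ _) fun i _ => hm1 (m + i) (by omega) t
    linarith
  refine eventually_atTop.2 ⟨m + (L + 1), fun N hN => ?_⟩
  obtain ⟨K, rfl⟩ := Nat.exists_eq_add_of_le hN
  rw [prod_range_add, prod_range_add]
  have c1 := mul_le_mul (all m t) b2 (prod_nonneg fun i _ => h0 _ _) zero_le_two
  have c2 := mul_le_mul c1 (tail (m + (L + 1)) K t (by omega)) (prod_nonneg fun i _ => h0 _ _)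
    (by positivity)
  linarith

end Pool.Agent.FS.UniqCrit
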