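import Pool.Agent.FS.UniqCrit.Hat

set_option autoImplicit false

namespace Pool.Agent.FS.UniqCrit

open MeasureTheory Filter Topology Finset
open Pool.Agent.Lib.MP_c7f57c_an Pool.Agent.Lib.MP_c7f57c_an.Thr
open Pool.Agent.Lib.MP_c7f57c_an.Gen (P psi P_pos P_posR P_mono lt_P P_succ P_succR)

lemma ser_ch_im (t : ℝ) : (ch t).im = Real.sin (2 * Real.pi * t) := by
  rw [ch_eq, Complex.exp_ofReal_mul_I_im]

lemma ser_term (z : ℂ) (t : ℝ) :
    (z * ch (-t)).re = z.re * Real.cos (2 * Real.pi * t) + z.im * Real.sin (2 * Real.pi * t) := by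
  rw [Complex.mul_re, ch_re, ser_ch_im, mul_neg, Real.cos_neg, Real.sin_neg]; ring

lemma ser_Ioo (J : ℕ) (hJ : 1 ≤ J) :
    Finset.Ioo (-((J + 1 : ℕ) : ℤ)) ((J + 1 : ℕ) : ℤ)
      = insert (J : ℤ) (insert (-(J : ℤ)) (Finset.Ioo (-(J : ℤ)) J)) := by
  ext k
  simp only [Finset.mem_insert, Finset.mem_Ioo]
  push_cast
  omega

/-- real form of the symmetric partial sums -/
lemma real_series (c : ℤ → ℂ) : ∃ a b : ℕ → ℝ, a 0 = (c 0).re ∧ ∀ (x : ℝ) (J : ℕ),
    ∑ n ∈ range J, Uniq.tm a b n x = (∑ k ∈ Finset.Ioo (-(J : ℤ)) J, c k * ch (-(k * x))).re := by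
  refine ⟨fun n => if n = 0 then (c 0).re else (c n).re + (c (-(n : ℤ))).re,
    fun n => (c n).im - (c (-(n : ℤ))).im, by simp, ?_⟩
  intro x J
  induction J with
  | zero => simp
  | succ J ih =>
    rcases Nat.eq_zero_or_pos J with h0 | hJ
    · subst h0
      have h1 : Finset.Ioo (-((0 + 1 : ℕ) : ℤ)) ((0 + 1 : ℕ) : ℤ) = {0} := by
        ext k
        simp only [Finset.mem_Ioo, Finset.mem_singleton]
        push_cast
        omega
      rw [h1, Finset.sum_singleton, ser_term]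
      simp [Uniq.tm]
    · have hn1 : (J : ℤ) ∉ insert (-(J : ℤ)) (Finset.Ioo (-(J : ℤ)) J) := by
        simp only [Finset.mem_insert, Finset.mem_Ioo]
        omega
      have hn2 : (-(J : ℤ)) ∉ Finset.Ioo (-(J : ℤ)) J := by
        simp only [Finset.mem_Ioo]
        omega
      rw [Finset.sum_range_succ, ih, ser_Ioo J hJ, Finset.sum_insert hn1, Finset.sum_insert hn2,
        Complex.add_re, Complex.add_re, ser_term, ser_term]
      have hJ0 : J ≠ 0 := by omega
      have e1 : 2 * Real.pi * (((J : ℤ) : ℝ) * x) = 2 * Real.pi * J * x := by push_cast; ring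
      have e2 : 2 * Real.pi * (((-(J : ℤ) : ℤ) : ℝ) * x) = -(2 * Real.pi * J * x) := by
        push_cast; ring
      rw [e1, e2, Real.cos_neg, Real.sin_neg]
      simp only [Uniq.tm, hJ0, if_false]
      ring

end Pool.Agent.FS.UniqCrit
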