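import Pool.Agent.FS.UniqCrit.CutB
import Pool.Agent.FS.UniqCrit.ProdB
import Pool.Agent.FS.UniqCrit.Lev
import Pool.Agent.FS.UniqCrit.Loc
import Pool.Agent.FS.UniqCrit.Back
import Pool.Agent.FS.UniqCrit.Ser

set_option autoImplicit false

namespace Pool.Agent.FS.UniqCrit

open MeasureTheory Filter Topology Finset
open Pool.Agent.Lib.MP_c7f57c_an Pool.Agent.Lib.MP_c7f57c_an.Thr
open Pool.Agent.Lib.MP_c7f57c_an.Gen (P psi P_pos P_posR P_mono lt_P P_succ P_succR)

variable {M : ℕ → ℕ} {D : ℕ → Finset ℕ}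

lemma exists_v (hM : ∀ n, 2 ≤ M n) (hD : ∀ n, D n ⊆ range (M n)) (hF : FlatC M D) :
    ∃ v : ℕ → ℕ → ℂ, ∀ ε : ℝ, 0 < ε → ∀ᶠ n in atTop, ∑ d ∈ D n, v n d = 1 ∧ ∀ t : ℝ,
      ‖∑ d ∈ D n, v n d * ch (t / P M (n + 1) * d)‖ ≤ psi M n t + ε * th M n t := by
  let G : ℕ → (ℕ → ℂ) → ℝ → Prop := fun n v e => ∑ d ∈ D n, v d = 1 ∧ ∀ t : ℝ,
      ‖∑ d ∈ D n, v d * ch (t / P M (n + 1) * d)‖ ≤ psi M n t + e * th M n t
  let S : ℕ → Set ℝ := fun n => {e | 0 ≤ e ∧ ∃ v, G n v e}
  have hb : ∀ n, BddBelow (S n) := fun n => ⟨0, fun e he => he.1⟩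
  have h1 : ∀ n : ℕ, ∃ (v : ℕ → ℂ) (e : ℝ), (S n).Nonempty →
      G n v e ∧ e < sInf (S n) + 1 / ((n : ℝ) + 1) := fun n => by
    by_cases hS : (S n).Nonempty
    · obtain ⟨e, ⟨-, v, hv⟩, he⟩ := Real.lt_sInf_add_pos hS
        (show 0 < 1 / ((n : ℝ) + 1) by positivity)
      exact ⟨v, e, fun _ => ⟨hv, he⟩⟩
    · exact ⟨0, 0, fun h => absurd h hS⟩
  choose v e he using h1
  refine ⟨v, fun ε hε => ?_⟩
  obtain ⟨δ, hδ, H⟩ := cut_weights (half_pos hε)
  have h2 := (tendsto_one_div_add_atTop_nhds_zero_nat (𝕜 := ℝ)).eventually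
    (gt_mem_nhds (half_pos hε))
  filter_upwards [hF δ hδ, h2] with n ⟨w, w1, w2⟩ hn
  have h3 : ε / 2 ∈ S n := by
    obtain ⟨u, u1, u2⟩ := H (M n) (D n) w (hM n) (hD n) w1 w2
    exact ⟨by positivity, u, u1, fun t => u2 (t / P M (n + 1))⟩
  obtain ⟨⟨g1, g2⟩, g3⟩ := he n ⟨_, h3⟩
  have h4 := csInf_le (hb n) h3
  refine ⟨g1, fun t => (g2 t).trans ?_⟩
  have h5 : 0 ≤ th M n t := le_min zero_le_one (by positivity)
  have h6 : e n ≤ ε := by linarith
  have := mul_le_mul_of_nonneg_right h6 h5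
  linarith

lemma two_digits (hM : ∀ n, 2 ≤ M n) (hF : FlatC M D) :
    ∀ᶠ n in atTop, ∀ e : ℕ, ∃ d ∈ D n, d ≠ e := by
  filter_upwards [hF (1 / 2) (by norm_num)] with n ⟨w, w1, w2⟩ e
  by_contra hc
  push Not at hc
  have h1 := w2 1 one_pos (hM n)
  rw [Finset.sum_congr rfl (g := fun d => w d * ch ((1 : ℕ) * e / M n))
    (fun d hd => by rw [hc d hd]), ← Finset.sum_mul, w1, one_mul, norm_ch] at h1
  norm_num at h1

lemma series_of_flat (hM : ∀ n, 2 ≤ M n) (hD : ∀ n, D n ⊆ range (M n))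
    (hne : ∀ n, (D n).Nonempty) (hF : FlatC M D) : ∃ a b : ℕ → ℝ, a 0 = 1 ∧
      ∀ x ∈ Set.Icc (0 : ℝ) 1 \
        {x : ℝ | ∃ d : ℕ → ℕ, (∀ n, d n ∈ D n) ∧ x = ∑' n, (d n : ℝ) / P M (n + 1)},
        Tendsto (fun N => ∑ n ∈ range N, Uniq.tm a b n x) atTop (𝓝 0) := by
  obtain ⟨v, hv⟩ := exists_v hM hD hF
  obtain ⟨p, hp⟩ := eventually_atTop.1 ((hv (1 / 100) (by norm_num)).and (two_digits hM hF))
  have he : ∀ n, ∃ e ∈ D n, (n = p → 0 < e) ∧ (n = p + 1 → e + 1 < M n) := fun n => by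
    by_cases h1 : n = p
    · obtain ⟨d, hd, hd'⟩ := (hp n h1.ge).2 0
      exact ⟨d, hd, fun _ => by omega, fun h => by omega⟩
    · by_cases h2 : n = p + 1
      · obtain ⟨d, hd, hd'⟩ := (hp n (by omega)).2 (M n - 1)
        have := mem_range.1 (hD n hd)
        exact ⟨d, hd, fun h => absurd h h1, fun _ => by omega⟩
      · obtain ⟨d, hd⟩ := hne n
        exact ⟨d, hd, fun h => absurd h h1, fun h => absurd h h2⟩
  choose e e1 e2 e3 using he
  let E : ℕ → Finset ℕ := fun n => if n < p + 2 then {e n} else D n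
  let u : ℕ → ℕ → ℂ := fun n => if n < p + 2 then fun _ => 1 else v n
  have hED : ∀ n, E n ⊆ D n := fun n => by
    simp only [E]; split_ifs
    · exact Finset.singleton_subset_iff.2 (e1 n)
    · exact subset_rfl
  have hEM : ∀ n, E n ⊆ range (M n) := fun n => (hED n).trans (hD n)
  have hEn : ∀ n, (E n).Nonempty := fun n => by
    simp only [E]; split_ifs
    · exact Finset.singleton_nonempty _
    · exact hne n
  have hu1 : ∀ n, ∑ d ∈ E n, u n d = 1 := fun n => by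
    simp only [E, u]; split_ifs with h
    · simp
    · exact (hp n (by omega)).1.1
  let f : ℕ → ℝ → ℝ := fun n t => ‖∑ d ∈ E n, u n d * ch (t / P M (n + 1) * d)‖
  obtain ⟨f1, f2⟩ := prod_decay hM f (fun n t => norm_nonneg _) (p + 2)
    (fun n hn t => by simp [f, E, u, hn, norm_ch])
    (fun n hn t => by
      simp only [f, E, u, if_neg (not_lt.2 hn)]
      exact (hp n (by omega)).1.2 t)
    (fun ε hε => by
      filter_upwards [hv ε hε, eventually_ge_atTop (p + 2)] with n hn hn' t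
      simp only [f, E, u, if_neg (not_lt.2 hn')]
      refine (hn.2 t).trans ?_
      have h5 : th M n t ≤ 1 := min_le_left _ _
      have := mul_le_mul_of_nonneg_left h5 hε.le
      linarith)
  choose a a1 a2 using exists_level hM hEM hEn u
  have hn : ∀ N (k : ℤ), ‖∑ r ∈ range (P M N), a N r * ch (k * r / P M N)‖ =
      ∏ n ∈ range N, f n k := fun N k => by rw [a1, norm_prod]
  have hb : ∀ N (k : ℤ), ‖∑ r ∈ range (P M N), a N r * ch (k * r / P M N)‖ ≤ 2 :=
    fun N k => by rw [hn]; exact f1 N k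
  have hc : ∀ k : ℤ, ∃ c : ℂ, Tendsto (fun N => ∑ r ∈ range (P M N), a N r * ch (k * r / P M N))
      (hyperfilter ℕ) (𝓝 c) := fun k => by
    obtain ⟨c, -, h⟩ := (isCompact_closedBall (0 : ℂ) 2).ultrafilter_le_nhds
      ((hyperfilter ℕ).map fun N => ∑ r ∈ range (P M N), a N r * ch (k * r / P M N))
      (le_principal_iff.2 (mem_map.2 (Eventually.of_forall fun N =>
        mem_closedBall_zero_iff.2 (hb N k))))
    exact ⟨c, h⟩
  choose c hc using hc
  have hc0 : c 0 = 1 := by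
    refine tendsto_nhds_unique (hc 0) (tendsto_const_nhds.congr fun N => ?_)
    rw [a1]
    simp [ch_zero, hu1]
  obtain ⟨A, B, A0, hAB⟩ := real_series c
  refine ⟨A, B, by rw [A0, hc0, Complex.one_re], fun x hx => ?_⟩
  obtain ⟨k, hk⟩ : ∃ k : ℕ → ℕ, ∀ n, (E n).card = k n + 1 :=
    ⟨fun n => (E n).card - 1, fun n => (Nat.sub_add_cancel (hEn n).card_pos).symm⟩
  choose g g1 g2 _ using fun n => exists_enum (E n) (hk n)
  have h : ∀ n j, g n j < M n := fun n j => mem_range.1 (hEM n (g1 n j))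
  obtain ⟨δ, hδ, h2⟩ := exists_del (c := k) hM h (k := p) (l := p + 1)
    (fun j => by
      have := g1 p j
      simp only [E, if_pos (show p < p + 2 by omega), Finset.mem_singleton] at this
      rw [this]; exact e2 p rfl)
    (fun j => by
      have := g1 (p + 1) j
      simp only [E, if_pos (show p + 1 < p + 2 by omega), Finset.mem_singleton] at this
      rw [this]; exact e3 _ rfl)
    x hx.1 (by
      rintro ⟨ω, rfl⟩
      exact hx.2 ⟨fun n => g n (ω n), fun n => hED n (g1 n _), rfl⟩)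
  have hL := localise (P M) a c (hyperfilter ℕ) Nat.hyperfilter_le_atTop (P_pos hM) hc hb
    (fun ε hε => by
      obtain ⟨R, hR⟩ := f2 ε hε
      exact ⟨R, fun k hk => (hR k hk).mono fun N hN => by rw [hn]; exact hN⟩)
    x (δ / 2) (half_pos hδ) (by
      filter_upwards [(Gen.tendsto_inv_P hM).eventually
        (gt_mem_nhds (show 0 < δ / 16 by positivity))] with N hN r hr ha
      obtain ⟨d, hd, hs⟩ := a2 N r hr ha
      choose ω hω using fun n => g2 n (d n) (hd n)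
      have hY : Y M g k ω = ∑' n, (d n : ℝ) / P M (n + 1) := tsum_congr fun n => by rw [hω]
      have b1 := Gen.tail_bounds hM (fun n => mem_range.1 (hEM n (hd n))) N
      rw [hs, ← hY] at b1
      have b2 := h2 ω
      have b3 : ‖ch (x - Y M g k ω) - 1‖ = ‖ch (Y M g k ω - x) - 1‖ := by
        rw [← neg_sub (Y M g k ω) x, ch_neg, ← RCLike.norm_conj (ch (Y M g k ω - x) - 1), map_sub,
          map_one]
      have b4 := norm_ch_sub (Y M g k ω - x) (r / P M N - x)
      have b5 : |Y M g k ω - x - (r / P M N - x)| ≤ 1 / P M N := by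
        rw [abs_le]
        have := (one_div_pos.2 (P_posR hM N))
        constructor <;> linarith [b1.1, b1.2]
      have b6 := norm_sub_le_norm_sub_add_norm_sub (ch (Y M g k ω - x)) (ch (r / P M N - x)) 1
      linarith)
  have hR := (Complex.continuous_re.tendsto 0).comp hL
  rw [Complex.zero_re] at hR
  exact hR.congr fun J => (hAB x J).symm

end Pool.Agent.FS.UniqCrit
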