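import Pool.Agent.FS.UniqCrit.Hat

set_option autoImplicit false

namespace Pool.Agent.FS.UniqCrit

open MeasureTheory Filter Topology Finset
open Pool.Agent.Lib.MP_c7f57c_an Pool.Agent.Lib.MP_c7f57c_an.Thr
open Pool.Agent.Lib.MP_c7f57c_an.Gen (P psi P_pos P_posR P_mono lt_P P_succ P_succR)

/-- the inverse cyclic distance to zero, cut below `T` -/
noncomputable def multU (N T j : ℕ) : ℝ :=
  if T < min j (N - j) then ((min j (N - j) : ℕ) : ℝ)⁻¹ else 0

lemma multU_nonneg (N T j : ℕ) : 0 ≤ multU N T j := by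
  unfold multU
  split_ifs
  · positivity
  · exact le_rfl

lemma mult_sq (N T : ℕ) : ∑ j ∈ range N, multU N T j ^ 2 ≤ 4 / ((T : ℝ) + 1) := by
  set f : ℕ → ℝ := fun k => if T < k then ((k : ℝ) ^ 2)⁻¹ else 0 with hf
  have f0 : ∀ k, 0 ≤ f k := fun k => by
    simp only [hf]
    split_ifs
    · positivity
    · exact le_rfl
  have h1 : ∀ j, multU N T j ^ 2 ≤ f j + f (N - j) := fun j => by
    have e : multU N T j ^ 2 = f (min j (N - j)) := by
      simp only [multU, hf]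
      split_ifs
      · rw [inv_pow]
      · simp
    rw [e]
    rcases min_choice j (N - j) with h | h <;> rw [h]
    · linarith [f0 (N - j)]
    · linarith [f0 j]
  have h2 : ∑ j ∈ range (N + 1), f j ≤ 2 / ((T : ℝ) + 1) := by
    refine le_trans (le_of_eq ?_) (sum_Ioo_inv_sq_le (α := ℝ) T (N + 1))
    rw [hf, ← sum_filter]
    refine sum_congr ?_ fun _ _ => rfl
    ext k
    simp only [mem_filter, mem_range, mem_Ioo]
    exact and_comm
  have h3 : ∑ j ∈ range (N + 1), f (N - j) = ∑ j ∈ range (N + 1), f j := sum_flip f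
  calc ∑ j ∈ range N, multU N T j ^ 2 ≤ ∑ j ∈ range (N + 1), multU N T j ^ 2 := by
        rw [sum_range_succ]
        linarith [sq_nonneg (multU N T N)]
    _ ≤ ∑ j ∈ range (N + 1), (f j + f (N - j)) := sum_le_sum fun j _ => h1 j
    _ = 2 * ∑ j ∈ range (N + 1), f j := by rw [sum_add_distrib, h3]; ring
    _ ≤ 2 * (2 / ((T : ℝ) + 1)) := by linarith
    _ = 4 / ((T : ℝ) + 1) := by ring

lemma mult_cs {N : ℕ} {b u : ℕ → ℝ} {B U : ℝ} (hB : 0 ≤ B) (hU : 0 ≤ U)
    (h1 : ∑ j ∈ range N, b j ^ 2 ≤ B ^ 2) (h2 : ∑ j ∈ range N, u j ^ 2 ≤ U ^ 2) :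
    ∑ j ∈ range N, b j * u j ≤ B * U := by
  refine (abs_le_of_sq_le_sq' ?_ (mul_nonneg hB hU)).2
  rw [mul_pow]
  exact (sum_mul_sq_le_sq_mul_sq _ _ _).trans
    (mul_le_mul h1 h2 (sum_nonneg fun _ _ => sq_nonneg _) (sq_nonneg _))

lemma mult_gap {N j : ℕ} (h : j < N) :
    4 * ((min j (N - j) : ℕ) : ℝ) / N ≤ ‖ch (j / N) - 1‖ := by
  have hN : (0 : ℝ) < N := by exact_mod_cast (by omega : 0 < N)
  rcases le_total j (N - j) with h1 | h1
  · rw [min_eq_left h1, mul_div_assoc]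
    refine norm_ch_sub_one (by positivity) ?_
    have : (2 * j : ℝ) ≤ N := by exact_mod_cast (by omega : 2 * j ≤ N)
    rw [div_le_iff₀ hN]
    linarith
  · rw [min_eq_right h1, mul_div_assoc]
    have h2 : (((N - j : ℕ) : ℝ) / N) ≤ 1 / 2 := by
      have : (2 * (N - j : ℕ) : ℝ) ≤ N := by exact_mod_cast (by omega : 2 * (N - j) ≤ N)
      rw [div_le_iff₀ hN]
      linarith
    refine (norm_ch_sub_one (by positivity) h2).trans (le_of_eq ?_)
    have e1 : ch (((N - j : ℕ) : ℝ) / N) * ch (j / N) = 1 := by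
      rw [← ch_add, Nat.cast_sub h.le, ← add_div, sub_add_cancel, div_self hN.ne']
      simpa using ch_int 1
    calc ‖ch (((N - j : ℕ) : ℝ) / N) - 1‖
        = ‖ch (((N - j : ℕ) : ℝ) / N) - 1‖ * ‖ch (j / N)‖ := by rw [norm_ch, mul_one]
      _ = ‖ch (j / N) - 1‖ := by rw [← norm_mul, sub_mul, e1, one_mul, norm_sub_rev]

/-- a cyclically Lipschitz multiplier -/
lemma mult_bound {η : ℝ} (hη : 0 < η) : ∃ T : ℕ, ∀ (N : ℕ) (a F : ℕ → ℂ) (A δ B : ℝ), 0 < N →
    (∀ j : ℤ, ‖∑ d ∈ range N, a d * ch (j * d / N)‖ ≤ A) →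
    (∀ j : ℤ, |j| ≤ T → ‖∑ d ∈ range N, a d * ch (j * d / N)‖ ≤ δ) →
    (∀ d < N, ‖F d‖ ≤ B) → (∀ d < N, ‖F ((d + 1) % N) - F d‖ ≤ B / N) →
    ‖∑ d ∈ range N, a d * F d‖ ≤ B * (2 * δ + η * A) := by
  obtain ⟨T, hT⟩ := exists_nat_ge (1 / (4 * η ^ 2))
  refine ⟨T, fun N a F A δ B hN hA hδ hB hD => ?_⟩
  have hN' : (0 : ℝ) < N := by exact_mod_cast hN
  have A0 : 0 ≤ A := (norm_nonneg _).trans (hA 0)
  have δ0 : 0 ≤ δ := (norm_nonneg _).trans (hδ 0 (by simp))
  have B0 : 0 ≤ B := (norm_nonneg _).trans (hB 0 hN)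
  set S : ℕ → ℂ := fun j => ∑ d ∈ range N, a d * ch (j * d / N) with hS
  set b : ℕ → ℝ := fun j => N * ‖hat N (fun d => F ((d + 1) % N) - F d) j‖ with hb
  have b0 : ∀ j, 0 ≤ b j := fun j => by simp only [hb]; positivity
  have e1 : ∑ d ∈ range N, a d * F d = ∑ j ∈ range N, hat N F j * S j := by
    simp only [hS, mul_sum]
    rw [sum_comm]
    refine sum_congr rfl fun d hd => ?_
    rw [hat_inv F (mem_range.1 hd), mul_sum]
    exact sum_congr rfl fun j _ => by ring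
  have hb2 : ∑ j ∈ range N, b j ^ 2 ≤ B ^ 2 := by
    simp only [hb, mul_pow]
    rw [← mul_sum, hat_parseval hN]
    have h1 : ∑ d ∈ range N, ‖F ((d + 1) % N) - F d‖ ^ 2 ≤ ∑ _d ∈ range N, (B / N) ^ 2 :=
      sum_le_sum fun d hd => pow_le_pow_left₀ (norm_nonneg _) (hD d (mem_range.1 hd)) 2
    rw [sum_const, card_range, nsmul_eq_mul] at h1
    calc (N : ℝ) ^ 2 * ((∑ d ∈ range N, ‖F ((d + 1) % N) - F d‖ ^ 2) / N)
        ≤ (N : ℝ) ^ 2 * ((N * (B / N) ^ 2) / N) := by gcongr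
      _ = B ^ 2 := by field_simp
  have SA : ∀ j, ‖S j‖ ≤ A := fun j => by simpa [hS] using hA j
  have Sδ : ∀ j < N, min j (N - j) ≤ T → ‖S j‖ ≤ δ := fun j hj h => by
    rcases le_total j (N - j) with h1 | h1
    · rw [min_eq_left h1] at h
      simpa [hS] using hδ j (by rw [abs_of_nonneg (by positivity)]; exact_mod_cast h)
    · rw [min_eq_right h1] at h
      have h2 := hδ ((j : ℤ) - N) (by rw [abs_le]; constructor <;> omega)
      refine le_trans (le_of_eq ?_) h2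
      congr 1
      refine sum_congr rfl fun d _ => ?_
      have e : (((j : ℤ) - N : ℤ) : ℝ) * d / N = j * d / N + ((-d : ℤ) : ℝ) := by
        push_cast
        field_simp
        ring
      rw [e, ch_add, ch_int, mul_one]
  have h0 : ‖hat N F 0‖ ≤ B := by
    unfold hat
    rw [norm_div, Complex.norm_natCast, div_le_iff₀ hN']
    refine (norm_sum_le _ _).trans ((sum_le_sum (g := fun _ => B) fun d hd => ?_).trans ?_)
    · rw [norm_mul, norm_ch, mul_one]
      exact hB d (mem_range.1 hd)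
    · rw [sum_const, card_range, nsmul_eq_mul, mul_comm]
  have key : ∀ j ∈ range N, ‖hat N F j * S j‖ ≤ (if j = 0 then B * δ else 0) +
      (δ / 4 * (b j * multU N 0 j) + A / 4 * (b j * multU N T j)) := fun j hj => by
    have hj' := mem_range.1 hj
    have p1 : 0 ≤ δ / 4 * (b j * multU N 0 j) :=
      mul_nonneg (by positivity) (mul_nonneg (b0 j) (multU_nonneg _ _ _))
    have p2 : 0 ≤ A / 4 * (b j * multU N T j) :=
      mul_nonneg (by positivity) (mul_nonneg (b0 j) (multU_nonneg _ _ _))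
    rw [norm_mul]
    by_cases j0 : j = 0
    · subst j0
      rw [if_pos rfl]
      have := mul_le_mul h0 (Sδ 0 hN (by simp)) (norm_nonneg _) B0
      linarith
    · rw [if_neg j0, zero_add]
      have r0 : 0 < min j (N - j) := by omega
      have r1 : (0 : ℝ) < ((min j (N - j) : ℕ) : ℝ) := by exact_mod_cast r0
      have h1 : ‖hat N F j‖ ≤ b j * ((min j (N - j) : ℕ) : ℝ)⁻¹ / 4 := by
        have h2 := mul_le_mul_of_nonneg_right (mult_gap hj') (norm_nonneg (hat N F j))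
        rw [← norm_mul, ← hat_diff hN, div_mul_eq_mul_div, div_le_iff₀ hN'] at h2
        rw [le_div_iff₀ (by norm_num), ← div_eq_mul_inv, le_div_iff₀ r1]
        simp only [hb]
        linarith
      have h3 : 0 ≤ b j * ((min j (N - j) : ℕ) : ℝ)⁻¹ / 4 := (norm_nonneg _).trans h1
      by_cases hT' : T < min j (N - j)
      · have e : multU N T j = ((min j (N - j) : ℕ) : ℝ)⁻¹ := if_pos hT'
        have := mul_le_mul h1 (SA j) (norm_nonneg _) h3
        rw [e]
        linarith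
      · have e : multU N 0 j = ((min j (N - j) : ℕ) : ℝ)⁻¹ := if_pos r0
        have := mul_le_mul h1 (Sδ j hj' (not_lt.1 hT')) (norm_nonneg _) h3
        rw [e]
        linarith
  have c1 : ∑ j ∈ range N, b j * multU N 0 j ≤ B * 2 :=
    mult_cs B0 (by norm_num) hb2 ((mult_sq N 0).trans (by norm_num))
  have c2 : ∑ j ∈ range N, b j * multU N T j ≤ B * (4 * η) := by
    refine mult_cs B0 (by positivity) hb2 ((mult_sq N T).trans ?_)
    rw [div_le_iff₀ (by positivity)] at hT ⊢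
    nlinarith [sq_nonneg η]
  rw [e1]
  refine (norm_sum_le _ _).trans ((sum_le_sum key).trans ?_)
  rw [sum_add_distrib, sum_add_distrib, ← mul_sum, ← mul_sum, sum_ite_eq', if_pos (mem_range.2 hN)]
  have d1 := mul_le_mul_of_nonneg_left c1 (by positivity : 0 ≤ δ / 4)
  have d2 := mul_le_mul_of_nonneg_left c2 (by positivity : 0 ≤ A / 4)
  nlinarith [mul_nonneg B0 δ0]

end Pool.Agent.FS.UniqCrit
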