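import Pool.Agent.FS.UniqCrit.Hat

set_option autoImplicit false

namespace Pool.Agent.FS.UniqCrit

open MeasureTheory Filter Topology Finset
open Pool.Agent.Lib.MP_c7f57c_an Pool.Agent.Lib.MP_c7f57c_an.Thr
open Pool.Agent.Lib.MP_c7f57c_an.Gen (P psi P_pos P_posR P_mono lt_P P_succ P_succR)

/-- the size of the error allowed at level `n` -/
noncomputable def th (M : ℕ → ℕ) (n : ℕ) (t : ℝ) : ℝ :=
  min 1 (M n * |t / P M (n + 1) - round (t / P M (n + 1))|)

lemma prodA_norm (u : ℝ) : 4 * |u - round u| ≤ ‖ch u - 1‖ := by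
  have h1 : |u - round u| ≤ 1 / 2 := abs_sub_round u
  have e : ch u = ch (u - round u) := by
    conv_lhs => rw [show u = (u - round u) + ((round u : ℤ) : ℝ) by ring, ch_add, ch_int, mul_one]
  rw [e]
  generalize u - round u = s at h1
  rcases le_total 0 s with h | h
  · rw [abs_of_nonneg h] at h1 ⊢
    exact norm_ch_sub_one h h1
  · rw [abs_of_nonpos h] at h1 ⊢
    have h2 := norm_ch_sub_one (θ := -s) (by linarith) h1
    have h3 : ch (-s) - 1 = (starRingEnd ℂ) (ch s - 1) := by rw [ch_neg, map_sub, map_one]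
    rwa [h3, Complex.norm_conj] at h2

lemma prodA_psi (M : ℕ → ℕ) (n : ℕ) (t : ℝ) :
    psi M n t * (M n * |t / P M (n + 1) - round (t / P M (n + 1))|) ≤ 1 / 2 := by
  unfold psi
  generalize t / P M (n + 1) = u
  have h1 := prodA_norm u
  have h2 : ‖∑ j ∈ range (M n), ch u ^ j‖ * ‖ch u - 1‖ ≤ 2 := by
    rw [← norm_mul, geom_sum_mul]
    refine (norm_sub_le _ _).trans ?_
    rw [norm_pow, norm_ch, one_pow, norm_one]
    norm_num
  have h3 := norm_nonneg (∑ j ∈ range (M n), ch u ^ j)
  rcases Nat.eq_zero_or_pos (M n) with h | h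
  · simp [h]
  have h4 : (0 : ℝ) < M n := by exact_mod_cast h
  rw [← mul_assoc, div_mul_cancel₀ _ h4.ne']
  nlinarith

lemma prodA_rho {M : ℕ → ℕ} (hM : ∀ n, 2 ≤ M n) (n : ℕ) (t : ℝ)
    (h : M n * |t / P M (n + 1) - round (t / P M (n + 1))| ≤ 3 / 5) :
    2 / 3 * (M n * |t / P M (n + 1) - round (t / P M (n + 1))|)
      ≤ |t / P M n - round (t / P M n)| := by
  have h0 : (0 : ℝ) < M n := by have := hM n; positivity
  have h1 := P_posR hM n
  have e : t / P M n = M n * (t / P M (n + 1)) := by rw [P_succR]; field_simp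
  rw [e]
  generalize t / P M (n + 1) = u at h ⊢
  obtain ⟨k, hk⟩ : ∃ k : ℤ, (M n : ℝ) * u - round ((M n : ℝ) * u) = M n * (u - round u) - k :=
    ⟨round ((M n : ℝ) * u) - M n * round u, by push_cast; ring⟩
  rw [hk]
  have h2 : (M n : ℝ) * |u - round u| = |M n * (u - round u)| := by
    rw [abs_mul, abs_of_pos h0]
  rw [h2] at h ⊢
  generalize (M n : ℝ) * (u - round u) = y at h ⊢
  have h3 := abs_nonneg y
  rcases eq_or_ne k 0 with rfl | hk0
  · simp only [Int.cast_zero, sub_zero]
    linarith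
  · have h4 : (1 : ℝ) ≤ |(k : ℝ)| := by exact_mod_cast Int.one_le_abs hk0
    have h5 : |(k : ℝ)| ≤ |y| + |y - k| := by
      have := abs_sub y (y - k)
      rwa [sub_sub_cancel] at this
    linarith

lemma prodA_step {M : ℕ → ℕ} (hM : ∀ n, 2 ≤ M n) (n : ℕ) (t : ℝ) :
    (psi M n t + 1 / 100 * th M n t) *
        Real.exp (6 / 100 * |t / P M (n + 1) - round (t / P M (n + 1))|)
      ≤ Real.exp (6 / 100 * |t / P M n - round (t / P M n)|) := by
  have h0 : (2 : ℝ) ≤ M n := by exact_mod_cast hM n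
  have a1 := prodA_psi M n t
  have a2 := prodA_rho hM n t
  have a3 := Gen.psi_le M n t
  have a4 := Gen.psi_nonneg M n t
  have a5 : |t / P M (n + 1) - round (t / P M (n + 1))| ≤ 1 / 2 := abs_sub_round _
  have a6 := abs_nonneg (t / P M (n + 1) - round (t / P M (n + 1)))
  have a7 := abs_nonneg (t / P M n - round (t / P M n))
  have a8 : th M n t ≤ 1 := min_le_left _ _
  have a9 : th M n t ≤ M n * |t / P M (n + 1) - round (t / P M (n + 1))| := min_le_right _ _
  generalize |t / P M (n + 1) - round (t / P M (n + 1))| = r at *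
  generalize |t / P M n - round (t / P M n)| = r' at *
  have b0 : 2 * r ≤ M n * r := mul_le_mul_of_nonneg_right h0 a6
  generalize (M n : ℝ) * r = θ at *
  rcases le_total θ (3 / 5) with h | h
  · have b1 := a2 h
    have b2 : psi M n t + 1 / 100 * th M n t ≤ Real.exp (θ / 100) := by
      linarith [Real.add_one_le_exp (θ / 100)]
    refine (mul_le_mul_of_nonneg_right b2 (Real.exp_pos _).le).trans ?_
    rw [← Real.exp_add]
    exact Real.exp_le_exp.2 (by linarith)
  · have b1 : psi M n t ≤ 5 / 6 := by nlinarith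
    have b2 : Real.exp (6 / 100 * r) ≤ 1 / (1 - 3 / 100) :=
      (Real.exp_le_exp.2 (by linarith : 6 / 100 * r ≤ 3 / 100)).trans
        (Real.exp_bound_div_one_sub_of_interval (by norm_num) (by norm_num))
    have b3 : 1 ≤ Real.exp (6 / 100 * r') := Real.one_le_exp (by linarith)
    have b4 : (psi M n t + 1 / 100 * th M n t) * Real.exp (6 / 100 * r)
        ≤ (5 / 6 + 1 / 100) * (1 / (1 - 3 / 100)) :=
      mul_le_mul (by linarith) b2 (Real.exp_pos _).le (by norm_num)
    norm_num at b4 ⊢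
    norm_num at b3
    linarith [Real.one_le_exp (show 0 ≤ 3 / 50 * r' by linarith)]

lemma prod_bdd {M : ℕ → ℕ} (hM : ∀ n, 2 ≤ M n) (t : ℝ) (m L : ℕ) :
    ∏ i ∈ range L, (psi M (m + i) t + 1 / 100 * th M (m + i) t) ≤ 2 := by
  have p0 : ∀ L, 0 ≤ ∏ i ∈ range L, (psi M (m + i) t + 1 / 100 * th M (m + i) t) := fun L =>
    prod_nonneg fun i _ => add_nonneg (Gen.psi_nonneg _ _ _)
      (mul_nonneg (by norm_num) (le_min zero_le_one (by positivity)))
  have key : ∀ L, (∏ i ∈ range L, (psi M (m + i) t + 1 / 100 * th M (m + i) t)) *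
      Real.exp (6 / 100 * |t / P M (m + L) - round (t / P M (m + L))|)
      ≤ Real.exp (6 / 100 * |t / P M m - round (t / P M m)|) := by
    intro L
    induction L with
    | zero => simp
    | succ L ih =>
      rw [prod_range_succ, mul_assoc]
      exact (mul_le_mul_of_nonneg_left (prodA_step hM (m + L) t) (p0 L)).trans ih
  have h1 := key L
  have h2 : 1 ≤ Real.exp (6 / 100 * |t / P M (m + L) - round (t / P M (m + L))|) :=
    Real.one_le_exp (by positivity)
  have h3 : Real.exp (6 / 100 * |t / P M m - round (t / P M m)|) ≤ 1 / (1 - 3 / 100) :=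
    (Real.exp_le_exp.2 (by linarith [abs_sub_round (t / P M m)])).trans
      (Real.exp_bound_div_one_sub_of_interval (x := 3 / 100) (by norm_num) (by norm_num))
  have h4 := le_mul_of_one_le_right (p0 L) h2
  have h5 : (1 : ℝ) / (1 - 3 / 100) ≤ 2 := by norm_num
  linarith

end Pool.Agent.FS.UniqCrit
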